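import Mathlib

/-!
Library Helper524_CH: functions with vanishing logarithmic averages.
-/

set_option autoImplicit false

namespace Pool.Agent.Helper524_CH

open Finset Filter Topology

/-- the logarithmic sum -/
noncomputable def Ls (φ : ℕ → ℝ) (X : ℕ) : ℝ := ∑ n ∈ Icc 1 X, φ n / n

/-- the logarithmic averages vanish in the limit -/
def Ng (φ : ℕ → ℝ) : Prop := Tendsto (fun X : ℕ => Ls φ X / Real.log X) atTop (𝓝 0)

lemma Ls_add (φ ψ : ℕ → ℝ) (X : ℕ) : Ls (fun n => φ n + ψ n) X = Ls φ X + Ls ψ X := by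
  unfold Ls
  rw [← sum_add_distrib]
  exact sum_congr rfl fun n _ => by ring

lemma Ls_smul (c : ℝ) (φ : ℕ → ℝ) (X : ℕ) : Ls (fun n => c * φ n) X = c * Ls φ X := by
  unfold Ls
  rw [mul_sum]
  exact sum_congr rfl fun n _ => by ring

lemma Ls_mono {φ ψ : ℕ → ℝ} (h : ∀ n, 1 ≤ n → φ n ≤ ψ n) (X : ℕ) : Ls φ X ≤ Ls ψ X := by
  unfold Ls
  apply sum_le_sum
  intro n hn
  rw [mem_Icc] at hn
  have hn0 : (0 : ℝ) < n := by exact_mod_cast hn.1
  gcongr
  exact h n hn.1

lemma Ng.add {φ ψ : ℕ → ℝ} (h1 : Ng φ) (h2 : Ng ψ) : Ng (fun n => φ n + ψ n) := by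
  unfold Ng at *
  have := Tendsto.add h1 h2
  rw [add_zero] at this
  refine this.congr fun X => ?_
  rw [Ls_add, add_div]

lemma Ng.smul {φ : ℕ → ℝ} (c : ℝ) (h : Ng φ) : Ng (fun n => c * φ n) := by
  unfold Ng at *
  have := Tendsto.const_mul c h
  rw [mul_zero] at this
  refine this.congr fun X => ?_
  rw [Ls_smul, mul_div_assoc]

lemma Ng.congr {φ ψ : ℕ → ℝ} (h : Ng φ) (h2 : ∀ n, 1 ≤ n → φ n = ψ n) : Ng ψ := by
  unfold Ng at *
  refine h.congr fun X => ?_
  congr 1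
  unfold Ls
  apply sum_congr rfl
  intro n hn
  rw [mem_Icc] at hn
  rw [h2 n hn.1]

lemma Ng_zero : Ng (fun _ => 0) := by
  unfold Ng Ls
  simp

lemma Ng_bdd {φ : ℕ → ℝ} (B : ℝ) (h : ∀ X : ℕ, 1 ≤ X → |Ls φ X| ≤ B) : Ng φ := by
  unfold Ng
  have hlog : Tendsto (fun X : ℕ => Real.log X) atTop atTop :=
    Real.tendsto_log_atTop.comp tendsto_natCast_atTop_atTop
  have h1 : Tendsto (fun X : ℕ => B / Real.log X) atTop (𝓝 0) := hlog.const_div_atTop B
  refine squeeze_zero_norm' ?_ h1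
  filter_upwards [eventually_ge_atTop 2] with X hX
  have hX1 : 0 < Real.log X := Real.log_pos (by exact_mod_cast hX)
  rw [Real.norm_eq_abs, abs_div, abs_of_pos hX1]
  gcongr
  exact h X (by omega)

lemma sum_inv_sq (X : ℕ) : ∑ n ∈ Icc 1 X, (1 : ℝ) / ((n : ℝ) * (n + 1)) ≤ 1 := by
  have h : ∀ X : ℕ, ∑ n ∈ Icc 1 X, (1 : ℝ) / ((n : ℝ) * (n + 1)) = 1 - 1 / ((X : ℝ) + 1) := by
    intro X
    induction X with
    | zero => simp
    | succ X ih =>
      rw [sum_Icc_succ_top (by omega), ih]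
      push_cast
      have h1 : (X : ℝ) + 1 ≠ 0 := by positivity
      have h2 : (X : ℝ) + 1 + 1 ≠ 0 := by positivity
      field_simp
      ring
  rw [h]
  have : (0 : ℝ) < 1 / ((X : ℝ) + 1) := by positivity
  linarith

/-- the shift -/
lemma Ng_shift (U : ℕ → ℝ) (B : ℝ) (hU : ∀ n, |U n| ≤ B) : Ng (fun n => U (n + 1) - U n) := by
  have hB : 0 ≤ B := (abs_nonneg _).trans (hU 0)
  apply Ng_bdd (3 * B)
  intro X _
  have h : ∀ X : ℕ, Ls (fun n => U (n + 1) - U n) X =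
      U (X + 1) / (X + 1) - U 1 + ∑ n ∈ Icc 1 X, U (n + 1) * (1 / ((n : ℝ) * (n + 1))) := by
    intro X
    unfold Ls
    induction X with
    | zero => simp
    | succ X ih =>
      rw [sum_Icc_succ_top (by omega), ih, sum_Icc_succ_top (by omega)]
      push_cast
      have h1 : (X : ℝ) + 1 ≠ 0 := by positivity
      have h2 : (X : ℝ) + 1 + 1 ≠ 0 := by positivity
      field_simp
      ring
  rw [h]
  have e1 : |U (X + 1) / ((X : ℝ) + 1)| ≤ B := by
    rw [abs_div, abs_of_pos (by positivity : (0 : ℝ) < (X : ℝ) + 1)]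
    apply div_le_of_le_mul₀ (by positivity) hB
    have := hU (X + 1)
    have hX : (0 : ℝ) ≤ X := Nat.cast_nonneg X
    nlinarith
  have e2 : |∑ n ∈ Icc 1 X, U (n + 1) * (1 / ((n : ℝ) * (n + 1)))| ≤ B := by
    refine (abs_sum_le_sum_abs _ _).trans ?_
    calc ∑ n ∈ Icc 1 X, |U (n + 1) * (1 / ((n : ℝ) * (n + 1)))|
        ≤ ∑ n ∈ Icc 1 X, B * (1 / ((n : ℝ) * (n + 1))) := by
          apply sum_le_sum
          intro n _
          rw [abs_mul, abs_of_nonneg (by positivity : (0 : ℝ) ≤ 1 / ((n : ℝ) * (n + 1)))]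
          exact mul_le_mul_of_nonneg_right (hU _) (by positivity)
      _ = B * ∑ n ∈ Icc 1 X, 1 / ((n : ℝ) * (n + 1)) := by rw [mul_sum]
      _ ≤ B * 1 := by
          apply mul_le_mul_of_nonneg_left (sum_inv_sq X) hB
      _ = B := mul_one B
  have e3 := hU 1
  rw [abs_le] at *
  constructor <;> linarith [e1.1, e1.2, e2.1, e2.2, e3.1, e3.2]

/-- the dilation -/
lemma Ng_dil (p : ℕ) (hp : 1 ≤ p) (φ : ℕ → ℝ) (B : ℝ) (hφ : ∀ n, |φ n| ≤ B) :
    Ng (fun n => φ n - (if p ∣ n then p * φ (n / p) else 0)) := by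
  have hB : 0 ≤ B := (abs_nonneg _).trans (hφ 0)
  have hp0 : (0 : ℝ) < p := by exact_mod_cast hp
  apply Ng_bdd (B * p)
  intro X hX
  have h1 : ∑ n ∈ Icc 1 X, (if p ∣ n then (p : ℝ) * φ (n / p) else 0) / (n : ℝ) = ∑ m ∈ Icc 1 (X / p), φ m / m := by
    have e1 : ∀ n ∈ Icc 1 X, (if p ∣ n then (p : ℝ) * φ (n / p) else 0) / (n : ℝ) =
        if p ∣ n then (p : ℝ) * φ (n / p) / n else 0 := by
      intro n _
      split_ifs <;> simp
    rw [sum_congr rfl e1, ← sum_filter]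
    symm
    apply sum_bij (fun m _ => p * m)
    · intro m hm
      rw [mem_Icc] at hm
      rw [mem_filter, mem_Icc]
      refine ⟨⟨Nat.mul_pos hp hm.1, ?_⟩, dvd_mul_right _ _⟩
      have := (Nat.le_div_iff_mul_le hp).1 hm.2
      linarith [Nat.mul_comm m p]
    · intro a _ b _ hab
      exact Nat.eq_of_mul_eq_mul_left hp hab
    · intro n hn
      rw [mem_filter, mem_Icc] at hn
      obtain ⟨m, rfl⟩ := hn.2
      refine ⟨m, ?_, rfl⟩
      rw [mem_Icc]
      refine ⟨?_, ?_⟩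
      · rcases Nat.eq_zero_or_pos m with h | h
        · rw [h] at hn; simp at hn
        · exact h
      · rw [Nat.le_div_iff_mul_le hp]
        linarith [Nat.mul_comm m p, hn.1.2]
    · intro m hm
      rw [mem_Icc] at hm
      have hm0 : (m : ℝ) ≠ 0 := by
        have : (0 : ℝ) < m := by exact_mod_cast hm.1
        exact this.ne'
      rw [Nat.mul_div_cancel_left m hp]
      push_cast
      field_simp
  have h2 : Ls (fun n => φ n - (if p ∣ n then p * φ (n / p) else 0)) X =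
      ∑ n ∈ Icc (X / p + 1) X, φ n / n := by
    unfold Ls
    have e1 : ∀ n ∈ Icc 1 X, (φ n - (if p ∣ n then (p : ℝ) * φ (n / p) else 0)) / (n : ℝ) =
        φ n / n - (if p ∣ n then (p : ℝ) * φ (n / p) else 0) / (n : ℝ) := fun n _ => by ring
    rw [sum_congr rfl e1, sum_sub_distrib, h1]
    have hle : X / p ≤ X := Nat.div_le_self X p
    have e2 : Icc 1 X = Icc 1 (X / p) ∪ Icc (X / p + 1) X := by
      ext n
      simp only [mem_union, mem_Icc]
      clear e1 h1
      generalize X / p = q at *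
      omega
    have e3 : Disjoint (Icc 1 (X / p)) (Icc (X / p + 1) X) := by
      rw [disjoint_left]
      intro n h1 h2
      rw [mem_Icc] at h1 h2
      omega
    rw [e2, sum_union e3]
    ring
  rw [h2]
  refine (abs_sum_le_sum_abs _ _).trans ?_
  have h3 : (X : ℝ) < p * (X / p + 1 : ℕ) := by
    have := Nat.lt_mul_div_succ X hp
    exact_mod_cast this
  have h4 : ∀ n ∈ Icc (X / p + 1) X, |φ n / n| ≤ B * p / X := by
    intro n hn
    rw [mem_Icc] at hn
    have hn0 : (0 : ℝ) < n := by exact_mod_cast (lt_of_lt_of_le (Nat.succ_pos _) hn.1 : 0 < n)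
    have hX0 : (0 : ℝ) < X := by exact_mod_cast hX
    rw [abs_div, abs_of_pos hn0, div_le_div_iff₀ hn0 hX0]
    have e4 : ((X / p + 1 : ℕ) : ℝ) ≤ n := by exact_mod_cast hn.1
    have e5 : (X : ℝ) ≤ p * n := by
      refine h3.le.trans ?_
      exact mul_le_mul_of_nonneg_left e4 hp0.le
    calc |φ n| * X ≤ B * (p * n) := mul_le_mul (hφ n) e5 hX0.le hB
      _ = B * p * n := by ring
  refine (sum_le_sum h4).trans ?_
  rw [sum_const, nsmul_eq_mul, Nat.card_Icc]
  have hX0 : (0 : ℝ) < X := by exact_mod_cast hX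
  have e6 : ((X + 1 - (X / p + 1) : ℕ) : ℝ) ≤ X := by
    have : X + 1 - (X / p + 1) ≤ X := by
      rw [Nat.add_sub_add_right]
      exact Nat.sub_le _ _
    exact_mod_cast this
  calc ((X + 1 - (X / p + 1) : ℕ) : ℝ) * (B * p / X) ≤ X * (B * p / X) :=
        mul_le_mul_of_nonneg_right e6 (by positivity)
    _ = B * p := by field_simp

end Pool.Agent.Helper524_CH
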