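import Mathlib

/-!
Library Helper524_CH: products of signs over windows, the bit patterns of the windows.
-/

set_option autoImplicit false

namespace Pool.Agent.Helper524_CH

open Finset

/-- the product of the signs at the places `n + i`, `i ∈ F` -/
def P (l : ℕ → ℤ) (n : ℕ) (F : List ℕ) : ℤ := (F.map (fun i => l (n + i))).prod

/-- the same for a set of places given by the bits of a number -/
def Q (l : ℕ → ℤ) (n m : ℕ) : ℤ := ∏ j ∈ range 32, if m.testBit j then l (n + j) else 1

/-- the bits of a list of places -/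
def xl : List ℕ → ℕ
  | [] => 0
  | i :: F => 2 ^ i ^^^ xl F

lemma Q_xor (l : ℕ → ℤ) (hl : ∀ n, l n = 1 ∨ l n = -1) (n i m : ℕ) (hi : i < 32) :
    Q l n (2 ^ i ^^^ m) = l (n + i) * Q l n m := by
  unfold Q
  have hm : i ∈ range 32 := mem_range.2 hi
  rw [← mul_prod_erase _ _ hm, ← mul_prod_erase (range 32) (fun j => if m.testBit j then l (n + j) else 1) hm]
  have h1 : ∏ j ∈ (range 32).erase i, (if (2 ^ i ^^^ m).testBit j then l (n + j) else 1) =
      ∏ j ∈ (range 32).erase i, (if m.testBit j then l (n + j) else 1) := by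
    apply prod_congr rfl
    intro j hj
    rw [mem_erase] at hj
    rw [Nat.testBit_xor, Nat.testBit_two_pow_of_ne hj.1.symm, Bool.false_xor]
  rw [h1, ← mul_assoc]
  congr 1
  rw [Nat.testBit_xor, Nat.testBit_two_pow_self]
  rcases hl (n + i) with h | h <;> cases hb : m.testBit i <;> simp [h]

lemma Q_zero (l : ℕ → ℤ) (n : ℕ) : Q l n 0 = 1 := by
  unfold Q
  simp

lemma P_eq (l : ℕ → ℤ) (hl : ∀ n, l n = 1 ∨ l n = -1) (n : ℕ) (F : List ℕ) (hF : ∀ i ∈ F, i < 32) :
    P l n F = Q l n (xl F) := by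
  induction F with
  | nil => simp [P, xl, Q_zero]
  | cons i F ih =>
    have h1 := ih (fun j hj => hF j (List.mem_cons_of_mem _ hj))
    have h2 : P l n (i :: F) = l (n + i) * P l n F := by simp [P]
    rw [h2, h1, show xl (i :: F) = 2 ^ i ^^^ xl F from rfl, Q_xor l hl n i _ (hF i List.mem_cons_self)]

lemma P_congr (l : ℕ → ℤ) (hl : ∀ n, l n = 1 ∨ l n = -1) (n : ℕ) (F G : List ℕ)
    (hF : (∀ i ∈ F, i < 32) ∧ (∀ i ∈ G, i < 32) ∧ xl F = xl G) : P l n F = P l n G := by
  rw [P_eq l hl n F hF.1, P_eq l hl n G hF.2.1, hF.2.2]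

lemma P_append (l : ℕ → ℤ) (n : ℕ) (F G : List ℕ) : P l n (F ++ G) = P l n F * P l n G := by
  simp [P]

/-- the product of four consecutive signs -/
def w (l : ℕ → ℤ) (n : ℕ) : ℤ := l n * l (n + 1) * l (n + 2) * l (n + 3)

lemma w_pm (l : ℕ → ℤ) (hl : ∀ n, l n = 1 ∨ l n = -1) (n : ℕ) : w l n = 1 ∨ w l n = -1 := by
  unfold w
  rcases hl n with h | h <;> rcases hl (n + 1) with h1 | h1 <;> rcases hl (n + 2) with h2 | h2 <;>
    rcases hl (n + 3) with h3 | h3 <;> simp [h, h1, h2, h3]

lemma w_P (l : ℕ → ℤ) (n i : ℕ) : w l (n + i) = P l n [i, i + 1, i + 2, i + 3] := by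
  unfold w P
  simp only [List.map_cons, List.map_nil, List.prod_cons, List.prod_nil, mul_one]
  rw [show n + (i + 1) = n + i + 1 by omega, show n + (i + 2) = n + i + 2 by omega,
    show n + (i + 3) = n + i + 3 by omega]
  ring

/-- the places of the factors of a product of `w`s -/
def fl (G : List ℕ) : List ℕ := G.flatMap (fun i => [i, i + 1, i + 2, i + 3])

lemma P_fl (l : ℕ → ℤ) (n : ℕ) (G : List ℕ) : P (w l) n G = P l n (fl G) := by
  induction G with
  | nil => rfl
  | cons i G ih =>
    have h1 : fl (i :: G) = [i, i + 1, i + 2, i + 3] ++ fl G := rfl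
    have h2 : P (w l) n (i :: G) = w l (n + i) * P (w l) n G := by simp [P]
    rw [h1, P_append, h2, ih, w_P]

/-- the window of `L` signs as a number -/
def xw (s : ℕ → ℤ) (n : ℕ) : ℕ → ℕ
  | 0 => 0
  | L + 1 => (if s n = -1 then 1 else 0) + 2 * xw s (n + 1) L

lemma xw_lt (s : ℕ → ℤ) (L n : ℕ) : xw s n L < 2 ^ L := by
  induction L generalizing n with
  | zero => simp [xw]
  | succ L ih =>
    unfold xw
    have := ih (n + 1)
    rw [pow_succ]
    split_ifs <;> omega

lemma xw_div (s : ℕ → ℤ) (L n : ℕ) : xw s n (L + 1) / 2 = xw s (n + 1) L := by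
  rw [xw]
  split_ifs <;> omega

lemma xw_mod (s : ℕ → ℤ) (L n : ℕ) : xw s n (L + 1) % 2 ^ L = xw s n L := by
  induction L generalizing n with
  | zero => simp [xw, Nat.mod_one]
  | succ L ih =>
    rw [show xw s n (L + 1 + 1) = (if s n = -1 then 1 else 0) + 2 * xw s (n + 1) (L + 1) from rfl,
      show xw s n (L + 1) = (if s n = -1 then 1 else 0) + 2 * xw s (n + 1) L from rfl]
    have h1 := ih (n + 1)
    have h2 : (2 * xw s (n + 1) (L + 1)) % 2 ^ (L + 1) = 2 * xw s (n + 1) L := by
      rw [pow_succ, mul_comm (2 ^ L) 2, Nat.mul_mod_mul_left, h1]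
    have h3 := xw_lt s L (n + 1)
    have h4 : (2 : ℕ) ^ (L + 1) = 2 * 2 ^ L := by ring
    split_ifs
    · rw [Nat.add_mod, h2, Nat.mod_eq_of_lt (a := 1) (by rw [h4]; have := Nat.one_le_two_pow (n := L); omega)]
      exact Nat.mod_eq_of_lt (by omega)
    · rw [zero_add, zero_add, h2]

lemma xw_bit (s : ℕ → ℤ) (L n i : ℕ) (hi : i < L) : (xw s n L).testBit i = decide (s (n + i) = -1) := by
  induction L generalizing n i with
  | zero => omega
  | succ L ih =>
    rw [xw]
    cases i with
    | zero =>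
      rw [Nat.testBit_zero]
      split_ifs with h <;> simp [h, Nat.add_mod]
    | succ i =>
      rw [Nat.testBit_succ]
      have h1 : ((if s n = -1 then 1 else 0) + 2 * xw s (n + 1) L) / 2 = xw s (n + 1) L := by
        split_ifs <;> omega
      rw [h1, ih (n + 1) i (by omega), show n + 1 + i = n + (i + 1) by omega]

/-- the places given by the bits of `g` -/
def pl (L g : ℕ) : List ℕ := (List.range L).filter (fun i => g.testBit i)

/-- the sum of the first thirteen bits -/
def sb (z : ℕ) : ℕ := ((List.range 13).map (fun i => (z >>> i) % 2)).sum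

lemma bit_eq (z i : ℕ) : (z >>> i) % 2 = (z.testBit i).toNat := by
  rw [Nat.testBit, Nat.and_comm, Nat.and_one_is_mod]
  rcases Nat.mod_two_eq_zero_or_one (z >>> i) with h | h <;> simp [h]

lemma sgn_list (s : ℕ → ℤ) (hs : ∀ n, s n = 1 ∨ s n = -1) (L n g : ℕ) (I : List ℕ) (hI : ∀ i ∈ I, i < L) :
    (-1 : ℤ) ^ ((I.map (fun i => ((xw s n L &&& g) >>> i) % 2)).sum) =
      ((I.filter (fun i => g.testBit i)).map (fun i => s (n + i))).prod := by
  induction I with
  | nil => simp
  | cons i I ih =>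
    have h1 := ih (fun j hj => hI j (List.mem_cons_of_mem _ hj))
    rw [List.map_cons, List.sum_cons, pow_add, h1, bit_eq, Nat.testBit_and,
      xw_bit s L n i (hI i List.mem_cons_self)]
    by_cases hg : g.testBit i = true
    · rw [List.filter_cons_of_pos (by simpa using hg), List.map_cons, List.prod_cons]
      congr 1
      rcases hs (n + i) with h | h <;> simp [h, hg]
    · rw [List.filter_cons_of_neg (by simpa using hg)]
      have : g.testBit i = false := by simpa using hg
      rw [this]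
      simp

end Pool.Agent.Helper524_CH
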