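import Pool.Agent.Helper524_CH.Avg
import Pool.Agent.Y958.TC.Two
import Pool.Agent.Y958.U.Fin
import Pool.Agent.Y958.U.Lam
import Pool.Agent.Y958.U.Diag

/-!
Library Helper524_CH: the logarithmically averaged two point theorem with periodic weights, from the two point
theorem at almost all scales.
-/

set_option autoImplicit false

namespace Pool.Agent.Helper524_CH

open Finset Filter Topology
open Pool.Agent.H376R2.MR (lam)
open Pool.Agent.TH823.MRS (ExpoSmall expo_lam lam_bdd lam_flip)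
open Pool.Agent.Y958.U (LZ s_avc lam_real ls li li_mem li_not ls_eq LZ_iff abel_log)
open Pool.Agent.Y958.TC (two Av)

/-- from almost all scales to logarithmic averages -/
lemma Ng_of_scales (F : ℕ → ℝ) (hF : ∀ n, |F n| ≤ 1) (h : ∀ δ : ℝ, 0 < δ → LZ {N | δ < |Av N F|}) : Ng F := by
  classical
  unfold Ng
  rw [Metric.tendsto_atTop]
  intro ε hε
  have hlog : Tendsto (fun X : ℕ => Real.log X) atTop atTop :=
    Real.tendsto_log_atTop.comp tendsto_natCast_atTop_atTop
  obtain ⟨X₁, hX₁⟩ := (LZ_iff _).1 (h (ε / 4) (by positivity)) (ε / 4) (by positivity)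
  obtain ⟨X₂, hX₂⟩ := eventually_atTop.1 (hlog.eventually_ge_atTop ((5 + ε) * (4 / ε)))
  refine ⟨X₁ + X₂ + 2, fun X hX => ?_⟩
  have h1 := hX₁ X (by omega)
  have h2 := hX₂ X (by omega)
  set E : Set ℕ := {N | ε / 4 < |Av N F|} with hE
  have hL0 : 0 < Real.log X := Real.log_pos (by exact_mod_cast (by omega : 1 < X))
  rw [Real.dist_eq, sub_zero, abs_div, abs_of_pos hL0, div_lt_iff₀ hL0]
  have hS : ∀ N : ℕ, |∑ n ∈ Icc 1 N, F n| ≤ N := by
    intro N
    refine (abs_sum_le_sum_abs _ _).trans ((sum_le_sum fun k _ => hF _).trans (le_of_eq ?_))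
    simp
  have hS2 : ∀ N : ℕ, 1 ≤ N → N ∉ E → |∑ n ∈ Icc 1 N, F n| ≤ ε / 4 * N + 2 := by
    intro N hN1 hN
    have hN0 : (0 : ℝ) < N := by exact_mod_cast hN1
    have e1 : |Av N F| ≤ ε / 4 := not_lt.1 hN
    unfold Av at e1
    rw [abs_div, abs_of_pos hN0, div_le_iff₀ hN0] at e1
    have e2 : ∑ n ∈ Icc 1 N, F n = ∑ n ∈ range N, F n - F 0 + F N := by
      have e3 : ∑ n ∈ range (N + 1), F n = ∑ n ∈ Icc 1 N, F n + F 0 := by
        rw [sum_range_succ']
        congr 1
        rw [← Pool.Agent.Y958.U.sum_range_Icc]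
      rw [sum_range_succ] at e3
      linarith
    rw [e2]
    have e4 := abs_le.1 (hF 0)
    have e5 := abs_le.1 (hF N)
    have e6 := abs_le.1 e1
    rw [abs_le]
    constructor <;> linarith [e4.1, e4.2, e5.1, e5.2, e6.1, e6.2]
  unfold Ls
  rw [abel_log]
  have h3 : |(∑ n ∈ Icc 1 X, F n) / ((X : ℝ) + 1)| ≤ 1 := by
    rw [abs_div, abs_of_pos (by positivity : (0 : ℝ) < (X : ℝ) + 1), div_le_one (by positivity)]
    have := hS X
    linarith
  have h4 : |∑ N ∈ Icc 1 X, (∑ n ∈ Icc 1 N, F n) * (1 / ((N : ℝ) * (N + 1)))| ≤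
      ε / 4 * (1 + Real.log X) + 2 + ls E X := by
    refine (abs_sum_le_sum_abs _ _).trans ?_
    have h5 : ∀ N ∈ Icc 1 X, |(∑ n ∈ Icc 1 N, F n) * (1 / ((N : ℝ) * (N + 1)))| ≤
        ε / 4 * (1 / (N : ℝ)) + 2 * (1 / ((N : ℝ) * (N + 1))) + li E N := by
      intro N hN
      rw [mem_Icc] at hN
      have hN0 : (0 : ℝ) < N := by exact_mod_cast (by omega : 0 < N)
      have e1 : (0 : ℝ) < 1 / ((N : ℝ) * (N + 1)) := by positivity
      rw [abs_mul, abs_of_pos e1]
      have e2 : (N : ℝ) * (1 / ((N : ℝ) * (N + 1))) ≤ 1 / N := by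
        rw [mul_one_div, div_le_div_iff₀ (by positivity) hN0]
        nlinarith
      by_cases hNE : N ∈ E
      · rw [li_mem hNE]
        have : |∑ n ∈ Icc 1 N, F n| * (1 / ((N : ℝ) * (N + 1))) ≤ N * (1 / ((N : ℝ) * (N + 1))) :=
          mul_le_mul_of_nonneg_right (hS N) e1.le
        have h6 : 0 ≤ ε / 4 * (1 / (N : ℝ)) := by positivity
        linarith
      · rw [li_not hNE, add_zero]
        calc |∑ n ∈ Icc 1 N, F n| * (1 / ((N : ℝ) * (N + 1))) ≤ (ε / 4 * N + 2) * (1 / ((N : ℝ) * (N + 1))) :=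
              mul_le_mul_of_nonneg_right (hS2 N hN.1 hNE) e1.le
          _ = ε / 4 * (N * (1 / ((N : ℝ) * (N + 1)))) + 2 * (1 / ((N : ℝ) * (N + 1))) := by ring
          _ ≤ ε / 4 * (1 / N) + 2 * (1 / ((N : ℝ) * (N + 1))) := by
              have := mul_le_mul_of_nonneg_left e2 (by positivity : 0 ≤ ε / 4)
              linarith
    refine (sum_le_sum h5).trans ?_
    rw [sum_add_distrib, sum_add_distrib, ← mul_sum, ← mul_sum, ls_eq]
    have h8 := harmonic_le_one_add_log X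
    have h9 : ((harmonic X : ℚ) : ℝ) = ∑ N ∈ Icc 1 X, 1 / (N : ℝ) := by
      rw [harmonic_eq_sum_Icc]
      push_cast
      exact sum_congr rfl fun n _ => by rw [one_div]
    rw [h9] at h8
    have h10 := mul_le_mul_of_nonneg_left h8 (by positivity : 0 ≤ ε / 4)
    have h11 := sum_inv_sq X
    linarith
  have h5 : |∑ N ∈ Icc 1 X, (∑ n ∈ Icc 1 N, F n) * (1 / ((N : ℝ) * (N + 1))) +
      (∑ n ∈ Icc 1 X, F n) / ((X : ℝ) + 1)| ≤ ε / 4 * (1 + Real.log X) + 2 + ls E X + 1 :=
    (abs_add_le _ _).trans (add_le_add h4 h3)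
  refine lt_of_le_of_lt h5 ?_
  have h6 : (5 + ε) * (4 / ε) * (ε / 4) ≤ Real.log X * (ε / 4) := mul_le_mul_of_nonneg_right h2 (by positivity)
  have h7 : (5 + ε) * (4 / ε) * (ε / 4) = 5 + ε := by field_simp
  rw [h7] at h6
  nlinarith

/-- the Liouville function -/
noncomputable def lm (n : ℕ) : ℤ := (-1) ^ ArithmeticFunction.cardFactors n

lemma lm_pm (n : ℕ) : lm n = 1 ∨ lm n = -1 := neg_one_pow_eq_or ℤ _

/-- the two point theorem with periodic weights, logarithmic averages -/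
lemma Ng_two (q : ℕ) (hq : 1 ≤ q) (W : ℕ → ℝ) (h : ℕ) (hh : 1 ≤ h) :
    Ng (fun n => W (n % q) * ((lm n : ℝ) * (lm (n + h) : ℝ))) := by
  set C : ℝ := 1 + ∑ i ∈ range q, |W i| with hC
  have hC0 : 0 < C := by
    have : 0 ≤ ∑ i ∈ range q, |W i| := sum_nonneg fun i _ => abs_nonneg _
    linarith
  have hW : ∀ n, |W (n % q)| ≤ C := by
    intro n
    have h1 := single_le_sum (f := fun i => |W i|) (fun i _ => abs_nonneg _)
      (mem_range.2 (Nat.mod_lt n hq))
    linarith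
  have hw1 : ∀ n, |W (n % q) / C| ≤ 1 := by
    intro n
    rw [abs_div, abs_of_pos hC0, div_le_one hC0]
    exact hW n
  have hlm : ∀ n, ((lam n : ℤ) : ℝ) = (lm n : ℝ) := by
    intro n
    rw [lam_real]
    unfold lm
    push_cast
    rfl
  have hab : ∀ n, |((lm n : ℤ) : ℝ)| = 1 := by
    intro n
    rcases lm_pm n with e | e <;> simp [e]
  have hE : ExpoSmall (fun n => (lam n : ℂ)) := fun ε hε A hA => expo_lam ε hε A hA
  have h1 : Ng (fun n => (fun m => W (m % q) / C) n * lam n * lam (n + h)) := by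
    apply Ng_of_scales
    · intro n
      rw [abs_mul, abs_mul, hlm, hlm, hab, hab, mul_one, mul_one]
      exact hw1 n
    · intro δ hδ
      exact two s_avc lam lam_bdd lam_flip hE h hh q hq (fun m => W (m % q) / C) hw1
        (fun n => by simp) δ hδ
  refine (h1.smul C).congr fun n _ => ?_
  simp only
  rw [hlm, hlm]
  field_simp

end Pool.Agent.Helper524_CH
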