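import Pool.Agent.Helper524_CH.Sound
import Pool.Agent.Helper524_CH.TwoPt

/-!
Library Helper524_CH: the logarithmic averages of the products of four consecutive values of the Liouville
function.
-/

set_option autoImplicit false

namespace Pool.Agent.Helper524_CH

open Finset Filter Topology

lemma lm_mul (p m : ℕ) (hp : p.Prime) (hm : 1 ≤ m) : lm (p * m) = - lm m := by
  unfold lm
  rw [ArithmeticFunction.cardFactors_mul hp.ne_zero (by omega), ArithmeticFunction.cardFactors_apply_prime hp,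
    pow_add, pow_one]
  ring

lemma P_dil (p m : ℕ) (hp : p.Prime) (hm : 1 ≤ m) (F : List ℕ) (hF : Even F.length) :
    P lm (p * m) (F.map (fun i => p * i)) = P lm m F := by
  have h : ∀ F : List ℕ, P lm (p * m) (F.map (fun i => p * i)) = (-1) ^ F.length * P lm m F := by
    intro F
    induction F with
    | nil => simp [P]
    | cons i F ih =>
      have h1 : P lm (p * m) ((i :: F).map (fun i => p * i)) =
          lm (p * m + p * i) * P lm (p * m) (F.map (fun i => p * i)) := by simp [P]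
      have h2 : P lm m (i :: F) = lm (m + i) * P lm m F := by simp [P]
      rw [h1, h2, ih, ← mul_add, lm_mul p (m + i) hp (by omega), List.length_cons, pow_succ]
      ring
  rw [h, hF.neg_one_pow, one_mul]

lemma P_abs (n : ℕ) (F : List ℕ) : |P lm n F| = 1 := by
  induction F with
  | nil => simp [P]
  | cons i F ih =>
    have h2 : P lm n (i :: F) = lm (n + i) * P lm n F := by simp [P]
    rw [h2, abs_mul, ih, mul_one]
    rcases lm_pm (n + i) with h | h <;> simp [h]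

/-- bounded functions -/
def Bz (f : ℕ → ℤ) : Prop := ∃ B : ℝ, ∀ n, |(f n : ℝ)| ≤ B

lemma Bz.add {f g : ℕ → ℤ} (hf : Bz f) (hg : Bz g) : Bz (fun n => f n + g n) := by
  obtain ⟨B, hB⟩ := hf
  obtain ⟨C, hC⟩ := hg
  refine ⟨B + C, fun n => ?_⟩
  push_cast
  exact (abs_add_le _ _).trans (add_le_add (hB n) (hC n))

lemma Bz_term (A : List ℤ) (F : List ℕ) (q : ℕ) (hq : 1 ≤ q) : Bz (fun n => A.getD (n % q) 0 * P lm n F) := by
  refine ⟨∑ i ∈ range q, |((A.getD i 0 : ℤ) : ℝ)|, fun n => ?_⟩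
  push_cast
  have h1 : |((P lm n F : ℤ) : ℝ)| = 1 := by
    have := P_abs n F
    exact_mod_cast this
  rw [abs_mul, h1, mul_one]
  exact single_le_sum (f := fun i => |((A.getD i 0 : ℤ) : ℝ)|) (fun i _ => abs_nonneg _)
    (mem_range.2 (Nat.mod_lt n hq))


lemma Bz_G2 : Bz (fun n => G2 (n % 6) (P lm n)) :=
  (Bz.add (Bz.add (Bz.add (Bz.add (Bz.add (Bz.add (Bz.add (Bz.add (Bz.add (Bz.add (Bz.add (Bz.add (Bz.add (Bz.add (Bz_term A15 [0, 1, 2, 3] 6 (by norm_num))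
    (Bz_term A45 [0, 2, 3, 5] 6 (by norm_num)))
    (Bz_term A51 [0, 1, 4, 5] 6 (by norm_num)))
    (Bz_term A75 [0, 1, 3, 6] 6 (by norm_num)))
    (Bz_term A85 [0, 2, 4, 6] 6 (by norm_num)))
    (Bz_term A105 [0, 3, 5, 6] 6 (by norm_num)))
    (Bz_term A119 [0, 1, 2, 4, 5, 6] 6 (by norm_num)))
    (Bz_term A135 [0, 1, 2, 7] 6 (by norm_num)))
    (Bz_term A153 [0, 3, 4, 7] 6 (by norm_num)))
    (Bz_term A165 [0, 2, 5, 7] 6 (by norm_num)))
    (Bz_term A187 [0, 1, 3, 4, 5, 7] 6 (by norm_num)))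
    (Bz_term A195 [0, 1, 6, 7] 6 (by norm_num)))
    (Bz_term A221 [0, 2, 3, 4, 6, 7] 6 (by norm_num)))
    (Bz_term A225 [0, 5, 6, 7] 6 (by norm_num)))
    (Bz_term A255 [0, 1, 2, 3, 4, 5, 6, 7] 6 (by norm_num)))

lemma Bz_G3 : Bz (fun n => G3 (n % 4) (P lm n)) :=
  (Bz.add (Bz.add (Bz_term B15 [0, 1, 2, 3] 4 (by norm_num))
    (Bz_term B45 [0, 2, 3, 5] 4 (by norm_num)))
    (Bz_term B51 [0, 1, 4, 5] 4 (by norm_num)))

lemma G2d_eq (m : ℕ) (hm : 1 ≤ m) (q : ℕ) : G2d q (P lm (2 * m)) = G2 q (P lm m) := by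
  unfold G2d G2
  rw [show P lm (2 * m) [0, 2, 4, 6] = P lm m [0, 1, 2, 3] from P_dil 2 m Nat.prime_two hm [0, 1, 2, 3] (by decide)]
  rw [show P lm (2 * m) [0, 4, 6, 10] = P lm m [0, 2, 3, 5] from P_dil 2 m Nat.prime_two hm [0, 2, 3, 5] (by decide)]
  rw [show P lm (2 * m) [0, 2, 8, 10] = P lm m [0, 1, 4, 5] from P_dil 2 m Nat.prime_two hm [0, 1, 4, 5] (by decide)]
  rw [show P lm (2 * m) [0, 2, 6, 12] = P lm m [0, 1, 3, 6] from P_dil 2 m Nat.prime_two hm [0, 1, 3, 6] (by decide)]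
  rw [show P lm (2 * m) [0, 4, 8, 12] = P lm m [0, 2, 4, 6] from P_dil 2 m Nat.prime_two hm [0, 2, 4, 6] (by decide)]
  rw [show P lm (2 * m) [0, 6, 10, 12] = P lm m [0, 3, 5, 6] from P_dil 2 m Nat.prime_two hm [0, 3, 5, 6] (by decide)]
  rw [show P lm (2 * m) [0, 2, 4, 8, 10, 12] = P lm m [0, 1, 2, 4, 5, 6] from P_dil 2 m Nat.prime_two hm [0, 1, 2, 4, 5, 6] (by decide)]
  rw [show P lm (2 * m) [0, 2, 4, 14] = P lm m [0, 1, 2, 7] from P_dil 2 m Nat.prime_two hm [0, 1, 2, 7] (by decide)]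
  rw [show P lm (2 * m) [0, 6, 8, 14] = P lm m [0, 3, 4, 7] from P_dil 2 m Nat.prime_two hm [0, 3, 4, 7] (by decide)]
  rw [show P lm (2 * m) [0, 4, 10, 14] = P lm m [0, 2, 5, 7] from P_dil 2 m Nat.prime_two hm [0, 2, 5, 7] (by decide)]
  rw [show P lm (2 * m) [0, 2, 6, 8, 10, 14] = P lm m [0, 1, 3, 4, 5, 7] from P_dil 2 m Nat.prime_two hm [0, 1, 3, 4, 5, 7] (by decide)]
  rw [show P lm (2 * m) [0, 2, 12, 14] = P lm m [0, 1, 6, 7] from P_dil 2 m Nat.prime_two hm [0, 1, 6, 7] (by decide)]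
  rw [show P lm (2 * m) [0, 4, 6, 8, 12, 14] = P lm m [0, 2, 3, 4, 6, 7] from P_dil 2 m Nat.prime_two hm [0, 2, 3, 4, 6, 7] (by decide)]
  rw [show P lm (2 * m) [0, 10, 12, 14] = P lm m [0, 5, 6, 7] from P_dil 2 m Nat.prime_two hm [0, 5, 6, 7] (by decide)]
  rw [show P lm (2 * m) [0, 2, 4, 6, 8, 10, 12, 14] = P lm m [0, 1, 2, 3, 4, 5, 6, 7] from P_dil 2 m Nat.prime_two hm [0, 1, 2, 3, 4, 5, 6, 7] (by decide)]

lemma G3d_eq (m : ℕ) (hm : 1 ≤ m) (q : ℕ) : G3d q (P lm (3 * m)) = G3 q (P lm m) := by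
  unfold G3d G3
  rw [show P lm (3 * m) [0, 3, 6, 9] = P lm m [0, 1, 2, 3] from P_dil 3 m Nat.prime_three hm [0, 1, 2, 3] (by decide)]
  rw [show P lm (3 * m) [0, 6, 9, 15] = P lm m [0, 2, 3, 5] from P_dil 3 m Nat.prime_three hm [0, 2, 3, 5] (by decide)]
  rw [show P lm (3 * m) [0, 3, 12, 15] = P lm m [0, 1, 4, 5] from P_dil 3 m Nat.prime_three hm [0, 1, 4, 5] (by decide)]

lemma Ng_G1 : Ng (fun n => (G1 (n % 12) (P lm n) : ℝ)) := by
  have h4 := Ng_two 12 (by norm_num) (fun r => ((T4.getD r 0 : ℤ) : ℝ)) 4 (by norm_num)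
  have h8 := Ng_two 12 (by norm_num) (fun r => ((T8.getD r 0 : ℤ) : ℝ)) 8 (by norm_num)
  have h12 := Ng_two 12 (by norm_num) (fun r => ((T12.getD r 0 : ℤ) : ℝ)) 12 (by norm_num)
  refine (((h4).add h8).add h12).congr fun n _ => ?_
  unfold G1 P
  simp only [List.map_cons, List.map_nil, List.prod_cons, List.prod_nil, mul_one, add_zero]
  push_cast
  ring


lemma Ng_G2 : Ng (fun n => ((G2 (n % 6) (P lm n) - cond (n % 2 == 0) (2 * G2d ((n % 12) / 2) (P lm n)) 0 : ℤ) : ℝ)) := by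
  obtain ⟨B, hB⟩ := Bz_G2
  refine (Ng_dil 2 (by norm_num) (fun n => ((G2 (n % 6) (P lm n) : ℤ) : ℝ)) B hB).congr fun n hn => ?_
  by_cases h : 2 ∣ n
  · rw [if_pos h]
    obtain ⟨m, rfl⟩ := h
    rw [Nat.mul_div_cancel_left m (by norm_num), show (2 * m % 2 == 0) = true by simp,
      show (2 * m % 12) / 2 = m % 6 by omega, cond_true, G2d_eq m (by omega)]
    push_cast
    ring
  · rw [if_neg h, show (n % 2 == 0) = false by simp; omega, cond_false]
    push_cast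
    ring

lemma Ng_G3 : Ng (fun n => ((G3 (n % 4) (P lm n) - cond (n % 3 == 0) (3 * G3d ((n % 12) / 3) (P lm n)) 0 : ℤ) : ℝ)) := by
  obtain ⟨B, hB⟩ := Bz_G3
  refine (Ng_dil 3 (by norm_num) (fun n => ((G3 (n % 4) (P lm n) : ℤ) : ℝ)) B hB).congr fun n hn => ?_
  by_cases h : 3 ∣ n
  · rw [if_pos h]
    obtain ⟨m, rfl⟩ := h
    rw [Nat.mul_div_cancel_left m (by norm_num), show (3 * m % 3 == 0) = true by simp,
      show (3 * m % 12) / 3 = m % 4 by omega, cond_true, G3d_eq m (by omega)]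
    push_cast
    ring
  · rw [if_neg h, show (n % 3 == 0) = false by simp; omega, cond_false]
    push_cast
    ring

lemma Ng_Hv : Ng (fun n => (Hv (n % 12) (P lm n) : ℝ)) := by
  refine ((Ng_G1.add Ng_G2).add Ng_G3).congr fun n _ => ?_
  unfold Hv
  rw [show n % 12 % 6 = n % 6 by omega, show n % 12 % 4 = n % 4 by omega, show n % 12 % 2 = n % 2 by omega,
    show n % 12 % 3 = n % 3 by omega]
  push_cast
  ring

lemma Vv_lt (V i : ℕ) : Vv V i < 131072 := Nat.mod_lt _ (by norm_num)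

lemma U_bdd (n : ℕ) : |((Vf (n % 12) (xw (w lm) n 12) : ℤ) : ℝ)| ≤ 131072 := by
  unfold Vf
  push_cast
  rw [Nat.abs_cast]
  exact_mod_cast (Vv_lt _ _).le

/-- the main bound -/
theorem main_log (ε : ℝ) (hε : 0 < ε) : ∃ X₀ : ℕ, ∀ X : ℕ, X₀ ≤ X →
    Ls (fun n => ((w lm n : ℤ) : ℝ)) X ≤ (4814 / 10000 + ε) * Real.log X := by
  have h1 : Ng (fun n => -1 * ((Vf ((n + 1) % 12) (xw (w lm) (n + 1) 12) : ℤ) - (Vf (n % 12) (xw (w lm) n 12) : ℤ) : ℝ) +
      (Hv (n % 12) (P lm n) : ℝ)) :=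
    ((Ng_shift (fun n => ((Vf (n % 12) (xw (w lm) n 12) : ℤ) : ℝ)) 131072 U_bdd).smul (-1)).add Ng_Hv
  unfold Ng at h1
  rw [Metric.tendsto_atTop] at h1
  obtain ⟨X₁, hX₁⟩ := h1 (10000 * (ε / 2)) (by positivity)
  have hlog : Tendsto (fun X : ℕ => Real.log X) atTop atTop :=
    Real.tendsto_log_atTop.comp tendsto_natCast_atTop_atTop
  obtain ⟨X₂, hX₂⟩ := eventually_atTop.1 (hlog.eventually_ge_atTop (2 / ε))
  refine ⟨X₁ + X₂ + 2, fun X hX => ?_⟩
  have h2 := hX₁ X (by omega)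
  have h3 := hX₂ X (by omega)
  have hL0 : 0 < Real.log X := Real.log_pos (by exact_mod_cast (by omega : 1 < X))
  rw [Real.dist_eq, sub_zero, abs_div, abs_of_pos hL0, div_lt_iff₀ hL0] at h2
  have h4 := (abs_lt.1 h2).2
  have h5 := Ls_mono (φ := fun n => 10000 * ((w lm n : ℤ) : ℝ))
    (ψ := fun n => 4814 * 1 + (-1 * ((Vf ((n + 1) % 12) (xw (w lm) (n + 1) 12) : ℤ) - (Vf (n % 12) (xw (w lm) n 12) : ℤ) : ℝ) +
      (Hv (n % 12) (P lm n) : ℝ))) (fun n _ => by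
      have h6 := main_ineq lm lm_pm n
      have h7 : P lm n [0, 1, 2, 3] = w lm n := by
        have := w_P lm n 0
        rw [add_zero] at this
        rw [this]
      rw [h7] at h6
      have h8 : ((10000 * w lm n + Vf ((n + 1) % 12) (xw (w lm) (n + 1) 12) : ℤ) : ℝ) ≤
        ((4814 + Vf (n % 12) (xw (w lm) n 12) + Hv (n % 12) (P lm n) : ℤ) : ℝ) := by exact_mod_cast h6
      push_cast at h8
      linarith) X
  rw [Ls_smul, Ls_add (fun _ => (4814 : ℝ) * 1), Ls_smul] at h5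
  have h9 : Ls (fun _ => (1 : ℝ)) X ≤ 1 + Real.log X := by
    have h8 := harmonic_le_one_add_log X
    have h9 : ((harmonic X : ℚ) : ℝ) = Ls (fun _ => (1 : ℝ)) X := by
      rw [harmonic_eq_sum_Icc]
      unfold Ls
      push_cast
      exact sum_congr rfl fun n _ => by rw [one_div]
    rw [h9] at h8
    exact h8
  have h10 : 1 ≤ ε / 2 * Real.log X := by
    have := mul_le_mul_of_nonneg_left h3 (by positivity : 0 ≤ ε / 2)
    have e : ε / 2 * (2 / ε) = 1 := by field_simp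
    linarith
  have h11 : 10000 * Ls (fun n => ((w lm n : ℤ) : ℝ)) X ≤ 4814 * (1 + Real.log X) + 10000 * (ε / 2) * Real.log X := by
    linarith
  nlinarith


end Pool.Agent.Helper524_CH
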