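import Pool.Agent.Helper524_CH.Fin

/-!
Library Helper524_CH: the shifts.
-/

set_option autoImplicit false

namespace Pool.Agent.Helper524_CH

open Finset Filter Topology

lemma Ng_shifts (U : ℕ → ℝ) (B : ℝ) (hU : ∀ n, |U n| ≤ B) (a : ℕ) : Ng (fun n => U (n + a) - U n) := by
  induction a with
  | zero => exact Ng_zero.congr fun n _ => by simp
  | succ a ih =>
    refine (ih.add (Ng_shift (fun n => U (n + a)) B fun n => hU _)).congr fun n _ => ?_
    rw [show n + (a + 1) = n + 1 + a by omega]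
    ring

/-- the main bound with a shift -/
theorem main_shift (a : ℕ) (ε : ℝ) (hε : 0 < ε) : ∃ X₀ : ℕ, ∀ X : ℕ, X₀ ≤ X →
    Ls (fun n => ((w lm (n + a) : ℤ) : ℝ)) X ≤ (4814 / 10000 + ε) * Real.log X := by
  obtain ⟨X₁, h1⟩ := main_log (ε / 2) (by positivity)
  have h2 := Ng_shifts (fun n => ((w lm n : ℤ) : ℝ)) 1 (fun n => by
    rcases w_pm lm lm_pm n with h | h <;> simp [h]) a
  unfold Ng at h2
  rw [Metric.tendsto_atTop] at h2
  obtain ⟨X₂, h3⟩ := h2 (ε / 2) (by positivity)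
  refine ⟨X₁ + X₂ + 2, fun X hX => ?_⟩
  have h4 := h1 X (by omega)
  have h5 := h3 X (by omega)
  have hL0 : 0 < Real.log X := Real.log_pos (by exact_mod_cast (by omega : 1 < X))
  rw [Real.dist_eq, sub_zero, abs_div, abs_of_pos hL0, div_lt_iff₀ hL0] at h5
  have h6 := (abs_lt.1 h5).2
  have h7 : Ls (fun n => ((w lm (n + a) : ℤ) : ℝ)) X = Ls (fun n => ((w lm n : ℤ) : ℝ)) X +
      Ls (fun n => ((w lm (n + a) : ℤ) : ℝ) - ((w lm n : ℤ) : ℝ)) X := by
    rw [← Ls_add]
    congr 1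
    funext n
    ring
  rw [h7]
  linarith

end Pool.Agent.Helper524_CH
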