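import Pool.Agent.Helper524_CH.Fin
import Pool.Agent.Helper524_CH.Shift

/-!
Library Helper524_CH: the logarithmic averages of the products of four values of the Liouville function in
progression, with a difference prime to 6.
-/

set_option autoImplicit false

namespace Pool.Agent.Helper524_CH

open Finset Filter Topology

/-- the values of the Liouville function at a progression -/
noncomputable def ld (d n i : ℕ) : ℤ := lm (n + d * i)

lemma ld_pm (d n i : ℕ) : ld d n i = 1 ∨ ld d n i = -1 := lm_pm _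

lemma P_dild (d p m : ℕ) (hp : p.Prime) (hm : 1 ≤ m) (F : List ℕ) (hF : Even F.length) :
    P (ld d (p * m)) 0 (F.map (fun i => p * i)) = P (ld d m) 0 F := by
  have h : ∀ F : List ℕ, P (ld d (p * m)) 0 (F.map (fun i => p * i)) = (-1) ^ F.length * P (ld d m) 0 F := by
    intro F
    induction F with
    | nil => simp [P]
    | cons i F ih =>
      have h1 : P (ld d (p * m)) 0 ((i :: F).map (fun i => p * i)) =
          ld d (p * m) (0 + p * i) * P (ld d (p * m)) 0 (F.map (fun i => p * i)) := by simp [P]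
      have h2 : P (ld d m) 0 (i :: F) = ld d m (0 + i) * P (ld d m) 0 F := by simp [P]
      have h3 : ld d (p * m) (0 + p * i) = - ld d m (0 + i) := by
        unfold ld
        rw [← lm_mul p (m + d * (0 + i)) hp (by omega)]
        congr 1
        ring
      rw [h1, h2, ih, h3, List.length_cons, pow_succ]
      ring
  rw [h, hF.neg_one_pow, one_mul]

lemma P_absd (d n : ℕ) (F : List ℕ) : |P (ld d n) 0 F| = 1 := by
  induction F with
  | nil => simp [P]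
  | cons i F ih =>
    have h2 : P (ld d n) 0 (i :: F) = ld d n (0 + i) * P (ld d n) 0 F := by simp [P]
    rw [h2, abs_mul, ih, mul_one]
    rcases ld_pm d n (0 + i) with h | h <;> rw [h] <;> norm_num

lemma Bz_termd (d : ℕ) (A : List ℤ) (F : List ℕ) (q : ℕ) (hq : 1 ≤ q) :
    Bz (fun n => A.getD ((d * n) % q) 0 * P (ld d n) 0 F) := by
  refine ⟨∑ i ∈ range q, |((A.getD i 0 : ℤ) : ℝ)|, fun n => ?_⟩
  push_cast
  have h1 : |((P (ld d n) 0 F : ℤ) : ℝ)| = 1 := by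
    have := P_absd d n F
    exact_mod_cast this
  rw [abs_mul, h1, mul_one]
  exact single_le_sum (f := fun i => |((A.getD i 0 : ℤ) : ℝ)|) (fun i _ => abs_nonneg _)
    (mem_range.2 (Nat.mod_lt _ hq))

lemma Bz_G2d (d : ℕ) : Bz (fun n => G2 ((d * n) % 6) (P (ld d n) 0)) :=
  (Bz.add (Bz.add (Bz.add (Bz.add (Bz.add (Bz.add (Bz.add (Bz.add (Bz.add (Bz.add (Bz.add (Bz.add (Bz.add (Bz.add (Bz_termd d A15 [0, 1, 2, 3] 6 (by norm_num))
    (Bz_termd d A45 [0, 2, 3, 5] 6 (by norm_num)))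
    (Bz_termd d A51 [0, 1, 4, 5] 6 (by norm_num)))
    (Bz_termd d A75 [0, 1, 3, 6] 6 (by norm_num)))
    (Bz_termd d A85 [0, 2, 4, 6] 6 (by norm_num)))
    (Bz_termd d A105 [0, 3, 5, 6] 6 (by norm_num)))
    (Bz_termd d A119 [0, 1, 2, 4, 5, 6] 6 (by norm_num)))
    (Bz_termd d A135 [0, 1, 2, 7] 6 (by norm_num)))
    (Bz_termd d A153 [0, 3, 4, 7] 6 (by norm_num)))
    (Bz_termd d A165 [0, 2, 5, 7] 6 (by norm_num)))
    (Bz_termd d A187 [0, 1, 3, 4, 5, 7] 6 (by norm_num)))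
    (Bz_termd d A195 [0, 1, 6, 7] 6 (by norm_num)))
    (Bz_termd d A221 [0, 2, 3, 4, 6, 7] 6 (by norm_num)))
    (Bz_termd d A225 [0, 5, 6, 7] 6 (by norm_num)))
    (Bz_termd d A255 [0, 1, 2, 3, 4, 5, 6, 7] 6 (by norm_num)))

lemma Bz_G3d (d : ℕ) : Bz (fun n => G3 ((d * n) % 4) (P (ld d n) 0)) :=
  (Bz.add (Bz.add (Bz_termd d B15 [0, 1, 2, 3] 4 (by norm_num))
    (Bz_termd d B45 [0, 2, 3, 5] 4 (by norm_num)))
    (Bz_termd d B51 [0, 1, 4, 5] 4 (by norm_num)))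

lemma G2d_eqd (d m : ℕ) (hm : 1 ≤ m) (q : ℕ) : G2d q (P (ld d (2 * m)) 0) = G2 q (P (ld d m) 0) := by
  unfold G2d G2
  rw [show P (ld d (2 * m)) 0 [0, 2, 4, 6] = P (ld d m) 0 [0, 1, 2, 3] from P_dild d 2 m Nat.prime_two hm [0, 1, 2, 3] (by decide)]
  rw [show P (ld d (2 * m)) 0 [0, 4, 6, 10] = P (ld d m) 0 [0, 2, 3, 5] from P_dild d 2 m Nat.prime_two hm [0, 2, 3, 5] (by decide)]
  rw [show P (ld d (2 * m)) 0 [0, 2, 8, 10] = P (ld d m) 0 [0, 1, 4, 5] from P_dild d 2 m Nat.prime_two hm [0, 1, 4, 5] (by decide)]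
  rw [show P (ld d (2 * m)) 0 [0, 2, 6, 12] = P (ld d m) 0 [0, 1, 3, 6] from P_dild d 2 m Nat.prime_two hm [0, 1, 3, 6] (by decide)]
  rw [show P (ld d (2 * m)) 0 [0, 4, 8, 12] = P (ld d m) 0 [0, 2, 4, 6] from P_dild d 2 m Nat.prime_two hm [0, 2, 4, 6] (by decide)]
  rw [show P (ld d (2 * m)) 0 [0, 6, 10, 12] = P (ld d m) 0 [0, 3, 5, 6] from P_dild d 2 m Nat.prime_two hm [0, 3, 5, 6] (by decide)]
  rw [show P (ld d (2 * m)) 0 [0, 2, 4, 8, 10, 12] = P (ld d m) 0 [0, 1, 2, 4, 5, 6] from P_dild d 2 m Nat.prime_two hm [0, 1, 2, 4, 5, 6] (by decide)]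
  rw [show P (ld d (2 * m)) 0 [0, 2, 4, 14] = P (ld d m) 0 [0, 1, 2, 7] from P_dild d 2 m Nat.prime_two hm [0, 1, 2, 7] (by decide)]
  rw [show P (ld d (2 * m)) 0 [0, 6, 8, 14] = P (ld d m) 0 [0, 3, 4, 7] from P_dild d 2 m Nat.prime_two hm [0, 3, 4, 7] (by decide)]
  rw [show P (ld d (2 * m)) 0 [0, 4, 10, 14] = P (ld d m) 0 [0, 2, 5, 7] from P_dild d 2 m Nat.prime_two hm [0, 2, 5, 7] (by decide)]
  rw [show P (ld d (2 * m)) 0 [0, 2, 6, 8, 10, 14] = P (ld d m) 0 [0, 1, 3, 4, 5, 7] from P_dild d 2 m Nat.prime_two hm [0, 1, 3, 4, 5, 7] (by decide)]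
  rw [show P (ld d (2 * m)) 0 [0, 2, 12, 14] = P (ld d m) 0 [0, 1, 6, 7] from P_dild d 2 m Nat.prime_two hm [0, 1, 6, 7] (by decide)]
  rw [show P (ld d (2 * m)) 0 [0, 4, 6, 8, 12, 14] = P (ld d m) 0 [0, 2, 3, 4, 6, 7] from P_dild d 2 m Nat.prime_two hm [0, 2, 3, 4, 6, 7] (by decide)]
  rw [show P (ld d (2 * m)) 0 [0, 10, 12, 14] = P (ld d m) 0 [0, 5, 6, 7] from P_dild d 2 m Nat.prime_two hm [0, 5, 6, 7] (by decide)]
  rw [show P (ld d (2 * m)) 0 [0, 2, 4, 6, 8, 10, 12, 14] = P (ld d m) 0 [0, 1, 2, 3, 4, 5, 6, 7] from P_dild d 2 m Nat.prime_two hm [0, 1, 2, 3, 4, 5, 6, 7] (by decide)]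

lemma G3d_eqd (d m : ℕ) (hm : 1 ≤ m) (q : ℕ) : G3d q (P (ld d (3 * m)) 0) = G3 q (P (ld d m) 0) := by
  unfold G3d G3
  rw [show P (ld d (3 * m)) 0 [0, 3, 6, 9] = P (ld d m) 0 [0, 1, 2, 3] from P_dild d 3 m Nat.prime_three hm [0, 1, 2, 3] (by decide)]
  rw [show P (ld d (3 * m)) 0 [0, 6, 9, 15] = P (ld d m) 0 [0, 2, 3, 5] from P_dild d 3 m Nat.prime_three hm [0, 2, 3, 5] (by decide)]
  rw [show P (ld d (3 * m)) 0 [0, 3, 12, 15] = P (ld d m) 0 [0, 1, 4, 5] from P_dild d 3 m Nat.prime_three hm [0, 1, 4, 5] (by decide)]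

lemma Ng_G1d (d : ℕ) (hd : 1 ≤ d) : Ng (fun n => (G1 ((d * n) % 12) (P (ld d n) 0) : ℝ)) := by
  have h4 := Ng_two 12 (by norm_num) (fun r => ((T4.getD ((d * r) % 12) 0 : ℤ) : ℝ)) (d * 4) (by omega)
  have h8 := Ng_two 12 (by norm_num) (fun r => ((T8.getD ((d * r) % 12) 0 : ℤ) : ℝ)) (d * 8) (by omega)
  have h12 := Ng_two 12 (by norm_num) (fun r => ((T12.getD ((d * r) % 12) 0 : ℤ) : ℝ)) (d * 12) (by omega)
  refine (((h4).add h8).add h12).congr fun n _ => ?_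
  unfold G1 P ld
  simp only [List.map_cons, List.map_nil, List.prod_cons, List.prod_nil, mul_one, mul_zero, add_zero, zero_add,
    Nat.mul_mod_mod]
  push_cast
  ring


lemma mod_two (d n : ℕ) (hd : d % 2 = 1) : (d * n) % 2 = n % 2 := by
  rw [Nat.mul_mod, hd, one_mul, Nat.mod_mod]

lemma mod_three (d n : ℕ) (hd : d % 3 ≠ 0) : (d * n) % 3 = 0 ↔ 3 ∣ n := by
  rw [← Nat.dvd_iff_mod_eq_zero]
  constructor
  · intro h
    rcases (Nat.Prime.dvd_mul Nat.prime_three).1 h with h1 | h1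
    · omega
    · exact h1
  · exact fun h => dvd_mul_of_dvd_right h _

lemma Ng_G2dd (d : ℕ) (hd : d % 2 = 1) : Ng (fun n => ((G2 ((d * n) % 6) (P (ld d n) 0) -
    cond ((d * n) % 2 == 0) (2 * G2d (((d * n) % 12) / 2) (P (ld d n) 0)) 0 : ℤ) : ℝ)) := by
  obtain ⟨B, hB⟩ := Bz_G2d d
  refine (Ng_dil 2 (by norm_num) (fun n => ((G2 ((d * n) % 6) (P (ld d n) 0) : ℤ) : ℝ)) B hB).congr fun n hn => ?_
  rw [mod_two d n hd]
  by_cases h : 2 ∣ n
  · rw [if_pos h]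
    obtain ⟨m, rfl⟩ := h
    have e1 : (d * (2 * m) % 12) / 2 = (d * m) % 6 := by
      rw [show d * (2 * m) = 2 * (d * m) by ring]
      omega
    rw [Nat.mul_div_cancel_left m (by norm_num), show (2 * m % 2 == 0) = true by simp,
      e1, cond_true, G2d_eqd d m (by omega)]
    push_cast
    ring
  · rw [if_neg h, show (n % 2 == 0) = false by simp; omega, cond_false]
    push_cast
    ring

lemma Ng_G3dd (d : ℕ) (hd : d % 3 ≠ 0) : Ng (fun n => ((G3 ((d * n) % 4) (P (ld d n) 0) -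
    cond ((d * n) % 3 == 0) (3 * G3d (((d * n) % 12) / 3) (P (ld d n) 0)) 0 : ℤ) : ℝ)) := by
  obtain ⟨B, hB⟩ := Bz_G3d d
  refine (Ng_dil 3 (by norm_num) (fun n => ((G3 ((d * n) % 4) (P (ld d n) 0) : ℤ) : ℝ)) B hB).congr fun n hn => ?_
  by_cases h : 3 ∣ n
  · rw [if_pos h]
    have e0 : ((d * n) % 3 == 0) = true := by
      rw [beq_iff_eq]
      exact (mod_three d n hd).2 h
    rw [e0]
    obtain ⟨m, rfl⟩ := h
    have e1 : (d * (3 * m) % 12) / 3 = (d * m) % 4 := by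
      rw [show d * (3 * m) = 3 * (d * m) by ring]
      omega
    rw [Nat.mul_div_cancel_left m (by norm_num), e1, cond_true, G3d_eqd d m (by omega)]
    push_cast
    ring
  · have e0 : ((d * n) % 3 == 0) = false := by
      rw [beq_eq_false_iff_ne]
      exact fun hh => h ((mod_three d n hd).1 hh)
    rw [if_neg h, e0, cond_false]
    push_cast
    ring

lemma Ng_Hvd (d : ℕ) (hd : 1 ≤ d) (hd2 : d % 2 = 1) (hd3 : d % 3 ≠ 0) :
    Ng (fun n => (Hv ((d * n) % 12) (P (ld d n) 0) : ℝ)) := by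
  refine (((Ng_G1d d hd).add (Ng_G2dd d hd2)).add (Ng_G3dd d hd3)).congr fun n _ => ?_
  unfold Hv
  generalize d * n = e
  rw [show e % 12 % 6 = e % 6 by omega, show e % 12 % 4 = e % 4 by omega, show e % 12 % 2 = e % 2 by omega,
    show e % 12 % 3 = e % 3 by omega]
  push_cast
  ring

/-- the potential along the progression -/
def Ud (s : ℕ → ℤ) (r : ℕ) : ℤ := Vf r (xw (w s) 0 12)

lemma Ud_bdd (s : ℕ → ℤ) (r : ℕ) : |((Ud s r : ℤ) : ℝ)| ≤ 131072 := by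
  unfold Ud Vf
  push_cast
  rw [Nat.abs_cast]
  exact_mod_cast (Vv_lt _ _).le

lemma xw_congr (s t : ℕ → ℤ) (L : ℕ) : ∀ n m : ℕ, (∀ i, s (n + i) = t (m + i)) → xw s n L = xw t m L := by
  induction L with
  | zero => intro n m _; rfl
  | succ L ih =>
    intro n m h
    rw [show xw s n (L + 1) = (if s n = -1 then 1 else 0) + 2 * xw s (n + 1) L from rfl,
      show xw t m (L + 1) = (if t m = -1 then 1 else 0) + 2 * xw t (m + 1) L from rfl]
    have h0 := h 0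
    rw [add_zero, add_zero] at h0
    rw [h0, ih (n + 1) (m + 1) (fun i => by
      have := h (1 + i)
      rw [← add_assoc, ← add_assoc] at this
      exact this)]

lemma main_r (l : ℕ → ℤ) (hl : ∀ n, l n = 1 ∨ l n = -1) (n r : ℕ) (hr : r < 12) :
    10000 * P l n [0, 1, 2, 3] + Vf ((r + 1) % 12) (xw (w l) (n + 1) 12) ≤
      4814 + Vf r (xw (w l) n 12) + Hv r (P l n) := by
  interval_cases r
  · exact snd0 l hl n
  · exact snd1 l hl n
  · exact snd2 l hl n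
  · exact snd3 l hl n
  · exact snd4 l hl n
  · exact snd5 l hl n
  · exact snd6 l hl n
  · exact snd7 l hl n
  · exact snd8 l hl n
  · exact snd9 l hl n
  · exact snd10 l hl n
  · exact snd11 l hl n

lemma main_d (d n : ℕ) (hd2 : d % 2 = 1) (hd3 : d % 3 ≠ 0) :
    10000 * P (ld d n) 0 [0, 1, 2, 3] + Ud (ld d (n + d)) ((d * (n + d)) % 12) ≤
      4814 + Ud (ld d n) ((d * n) % 12) + Hv ((d * n) % 12) (P (ld d n) 0) := by
  have h1 := main_r (ld d n) (ld_pm d n) 0 ((d * n) % 12) (Nat.mod_lt _ (by norm_num))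
  have h2 : (d * (n + d)) % 12 = ((d * n) % 12 + 1) % 12 := by
    have e1 : (d * d) % 12 = 1 := by
      have : d % 12 = 1 ∨ d % 12 = 5 ∨ d % 12 = 7 ∨ d % 12 = 11 := by omega
      rw [Nat.mul_mod]
      rcases this with h | h | h | h <;> rw [h]
    rw [mul_add]
    omega
  have h3 : xw (w (ld d n)) (0 + 1) 12 = xw (w (ld d (n + d))) 0 12 := by
    apply xw_congr
    intro i
    have e : ∀ j, ld d n (0 + 1 + j) = ld d (n + d) (0 + j) := by
      intro j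
      unfold ld
      congr 1
      ring
    unfold w
    rw [add_assoc (0 + 1) i 1, add_assoc (0 + 1) i 2, add_assoc (0 + 1) i 3, e, e, e, e]
    rw [← add_assoc, ← add_assoc, ← add_assoc]
  unfold Ud
  rw [h2, ← h3]
  exact h1

/-- the main bound along the progressions -/
theorem main_logd (d : ℕ) (hd : 1 ≤ d) (hd2 : d % 2 = 1) (hd3 : d % 3 ≠ 0) (ε : ℝ) (hε : 0 < ε) :
    ∃ X₀ : ℕ, ∀ X : ℕ, X₀ ≤ X →
    Ls (fun n => ((P (ld d n) 0 [0, 1, 2, 3] : ℤ) : ℝ)) X ≤ (4814 / 10000 + ε) * Real.log X := by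
  have h1 : Ng (fun n => -1 * ((Ud (ld d (n + d)) ((d * (n + d)) % 12) : ℝ) - (Ud (ld d n) ((d * n) % 12) : ℝ)) +
      (Hv ((d * n) % 12) (P (ld d n) 0) : ℝ)) :=
    ((Ng_shifts (fun n => ((Ud (ld d n) ((d * n) % 12) : ℤ) : ℝ)) 131072 (fun n => Ud_bdd _ _) d).smul (-1)).add
      (Ng_Hvd d hd hd2 hd3)
  unfold Ng at h1
  rw [Metric.tendsto_atTop] at h1
  obtain ⟨X₁, hX₁⟩ := h1 (10000 * (ε / 2)) (by positivity)
  have hlog : Tendsto (fun X : ℕ => Real.log X) atTop atTop :=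
    Real.tendsto_log_atTop.comp tendsto_natCast_atTop_atTop
  obtain ⟨X₂, hX₂⟩ := eventually_atTop.1 (hlog.eventually_ge_atTop (2 / ε))
  refine ⟨X₁ + X₂ + 2, fun X hX => ?_⟩
  have h2 := hX₁ X (by omega)
  have h3 := hX₂ X (by omega)
  have hL0 : 0 < Real.log X := Real.log_pos (by exact_mod_cast (by omega : 1 < X))
  rw [Real.dist_eq, sub_zero, abs_div, abs_of_pos hL0, div_lt_iff₀ hL0] at h2
  have h4 := (abs_lt.1 h2).2
  have h5 := Ls_mono (φ := fun n => 10000 * ((P (ld d n) 0 [0, 1, 2, 3] : ℤ) : ℝ))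
    (ψ := fun n => 4814 * 1 + (-1 * ((Ud (ld d (n + d)) ((d * (n + d)) % 12) : ℝ) - (Ud (ld d n) ((d * n) % 12) : ℝ)) +
      (Hv ((d * n) % 12) (P (ld d n) 0) : ℝ))) (fun n _ => by
      have h6 := main_d d n hd2 hd3
      have h8 : ((10000 * P (ld d n) 0 [0, 1, 2, 3] + Ud (ld d (n + d)) ((d * (n + d)) % 12) : ℤ) : ℝ) ≤
        ((4814 + Ud (ld d n) ((d * n) % 12) + Hv ((d * n) % 12) (P (ld d n) 0) : ℤ) : ℝ) := by exact_mod_cast h6
      push_cast at h8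
      linarith) X
  rw [Ls_smul, Ls_add (fun _ => (4814 : ℝ) * 1), Ls_smul] at h5
  have h9 : Ls (fun _ => (1 : ℝ)) X ≤ 1 + Real.log X := by
    have h8 := harmonic_le_one_add_log X
    have h9 : ((harmonic X : ℚ) : ℝ) = Ls (fun _ => (1 : ℝ)) X := by
      rw [harmonic_eq_sum_Icc]
      unfold Ls
      push_cast
      exact sum_congr rfl fun n _ => by rw [one_div]
    rw [h9] at h8
    exact h8
  have h10 : 1 ≤ ε / 2 * Real.log X := by
    have := mul_le_mul_of_nonneg_left h3 (by positivity : 0 ≤ ε / 2)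
    have e : ε / 2 * (2 / ε) = 1 := by field_simp
    linarith
  have h11 : 10000 * Ls (fun n => ((P (ld d n) 0 [0, 1, 2, 3] : ℤ) : ℝ)) X ≤
      4814 * (1 + Real.log X) + 10000 * (ε / 2) * Real.log X := by
    linarith
  nlinarith

/-- the main bound with a shift -/
theorem main_shiftd (a d : ℕ) (hd : 1 ≤ d) (hd2 : d % 2 = 1) (hd3 : d % 3 ≠ 0) (ε : ℝ) (hε : 0 < ε) :
    ∃ X₀ : ℕ, ∀ X : ℕ, X₀ ≤ X →
    Ls (fun n => ((P (ld d (n + a)) 0 [0, 1, 2, 3] : ℤ) : ℝ)) X ≤ (4814 / 10000 + ε) * Real.log X := by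
  obtain ⟨X₁, h1⟩ := main_logd d hd hd2 hd3 (ε / 2) (by positivity)
  have h2 := Ng_shifts (fun n => ((P (ld d n) 0 [0, 1, 2, 3] : ℤ) : ℝ)) 1 (fun n => by
    have := P_absd d n [0, 1, 2, 3]
    have h : |((P (ld d n) 0 [0, 1, 2, 3] : ℤ) : ℝ)| = 1 := by exact_mod_cast this
    exact h.le) a
  unfold Ng at h2
  rw [Metric.tendsto_atTop] at h2
  obtain ⟨X₂, h3⟩ := h2 (ε / 2) (by positivity)
  refine ⟨X₁ + X₂ + 2, fun X hX => ?_⟩
  have h4 := h1 X (by omega)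
  have h5 := h3 X (by omega)
  have hL0 : 0 < Real.log X := Real.log_pos (by exact_mod_cast (by omega : 1 < X))
  rw [Real.dist_eq, sub_zero, abs_div, abs_of_pos hL0, div_lt_iff₀ hL0] at h5
  have h6 := (abs_lt.1 h5).2
  have h7 : Ls (fun n => ((P (ld d (n + a)) 0 [0, 1, 2, 3] : ℤ) : ℝ)) X =
      Ls (fun n => ((P (ld d n) 0 [0, 1, 2, 3] : ℤ) : ℝ)) X +
      Ls (fun n => ((P (ld d (n + a)) 0 [0, 1, 2, 3] : ℤ) : ℝ) - ((P (ld d n) 0 [0, 1, 2, 3] : ℤ) : ℝ)) X := by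
    rw [← Ls_add]
    congr 1
    funext n
    ring
  rw [h7]
  linarith

end Pool.Agent.Helper524_CH

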