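import Pool.Agent.Helper524_CH.Core
import Pool.Agent.Helper524_CH.Cert

/-!
Library Helper524_CH: the inequality between the products of values of a sequence of signs.
-/

set_option autoImplicit false
set_option linter.unusedSimpArgs false

namespace Pool.Agent.Helper524_CH

def T4 : List ℤ := [3655, 4744, 531, 4967, 3613, 5554, 4005, 5206, 181, 5085, 3186, 6597]
def T8 : List ℤ := [-3178, 1548, 584, 1548, 3770, 0, 617, 2128, 2316, 2128, -1482, 0]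
def T12 : List ℤ := [482, 0, 895, 2347, -119, 0, -395, 0, -119, 960, 895, 0]
def A15 : List ℤ := [3286, 1663, 5619, 3532, 3999, 2305]
def A45 : List ℤ := [-1861, 158, 237, -879, 854, -3029]
def A51 : List ℤ := [-1562, -82, -1194, 915, -344, 1353]
def A75 : List ℤ := [1081, -1839, 882, 232, -768, -840]
def A85 : List ℤ := [990, 1466, 1022, -194, 1339, 2997]
def A105 : List ℤ := [-391, -234, -605, 40, -166, -883]
def A119 : List ℤ := [-1287, 317, -709, -215, 716, -658]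
def A135 : List ℤ := [1042, 642, 41, 178, -808, -226]
def A153 : List ℤ := [738, -661, -173, -100, 398, 1711]
def A165 : List ℤ := [-940, -650, -77, 33, -1183, -1756]
def A187 : List ℤ := [-987, 622, 45, -289, 825, -134]
def A195 : List ℤ := [1158, -527, -166, -77, 674, 138]
def A221 : List ℤ := [475, 629, -283, -147, -860, 1458]
def A225 : List ℤ := [-677, 506, 49, 111, 692, -1875]
def A255 : List ℤ := [-1103, -619, 269, -3, -1032, 390]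
def B15 : List ℤ := [1246, 1272, 1266, 830]
def B45 : List ℤ := [436, -98, -124, 0]
def B51 : List ℤ := [-240, 294, 320, 196]
def Vl : List ℕ := [V0, V1, V2, V3, V4, V5, V6, V7, V8, V9, V10, V11]

/-- the potential -/
def Vf (r i : ℕ) : ℤ := (Vv (Vl.getD r 0) i : ℕ)

/-- the part from the two point correlations -/
def G1 (q : ℕ) (c : List ℕ → ℤ) : ℤ :=
  T4.getD q 0 * c [0, 4] +
  T8.getD q 0 * c [0, 8] +
  T12.getD q 0 * c [0, 12]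
/-- the part from the dilation by two -/
def G2 (q : ℕ) (c : List ℕ → ℤ) : ℤ :=
  A15.getD q 0 * c [0, 1, 2, 3] +
  A45.getD q 0 * c [0, 2, 3, 5] +
  A51.getD q 0 * c [0, 1, 4, 5] +
  A75.getD q 0 * c [0, 1, 3, 6] +
  A85.getD q 0 * c [0, 2, 4, 6] +
  A105.getD q 0 * c [0, 3, 5, 6] +
  A119.getD q 0 * c [0, 1, 2, 4, 5, 6] +
  A135.getD q 0 * c [0, 1, 2, 7] +
  A153.getD q 0 * c [0, 3, 4, 7] +
  A165.getD q 0 * c [0, 2, 5, 7] +
  A187.getD q 0 * c [0, 1, 3, 4, 5, 7] +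
  A195.getD q 0 * c [0, 1, 6, 7] +
  A221.getD q 0 * c [0, 2, 3, 4, 6, 7] +
  A225.getD q 0 * c [0, 5, 6, 7] +
  A255.getD q 0 * c [0, 1, 2, 3, 4, 5, 6, 7]
/-- the dilation of that part -/
def G2d (q : ℕ) (c : List ℕ → ℤ) : ℤ :=
  A15.getD q 0 * c [0, 2, 4, 6] +
  A45.getD q 0 * c [0, 4, 6, 10] +
  A51.getD q 0 * c [0, 2, 8, 10] +
  A75.getD q 0 * c [0, 2, 6, 12] +
  A85.getD q 0 * c [0, 4, 8, 12] +
  A105.getD q 0 * c [0, 6, 10, 12] +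
  A119.getD q 0 * c [0, 2, 4, 8, 10, 12] +
  A135.getD q 0 * c [0, 2, 4, 14] +
  A153.getD q 0 * c [0, 6, 8, 14] +
  A165.getD q 0 * c [0, 4, 10, 14] +
  A187.getD q 0 * c [0, 2, 6, 8, 10, 14] +
  A195.getD q 0 * c [0, 2, 12, 14] +
  A221.getD q 0 * c [0, 4, 6, 8, 12, 14] +
  A225.getD q 0 * c [0, 10, 12, 14] +
  A255.getD q 0 * c [0, 2, 4, 6, 8, 10, 12, 14]
/-- the part from the dilation by three -/
def G3 (q : ℕ) (c : List ℕ → ℤ) : ℤ :=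
  B15.getD q 0 * c [0, 1, 2, 3] +
  B45.getD q 0 * c [0, 2, 3, 5] +
  B51.getD q 0 * c [0, 1, 4, 5]
/-- the dilation of that part -/
def G3d (q : ℕ) (c : List ℕ → ℤ) : ℤ :=
  B15.getD q 0 * c [0, 3, 6, 9] +
  B45.getD q 0 * c [0, 6, 9, 15] +
  B51.getD q 0 * c [0, 3, 12, 15]

/-- the combination of all the parts -/
def Hv (r : ℕ) (c : List ℕ → ℤ) : ℤ :=
  G1 r c + (G2 (r % 6) c - cond (r % 2 == 0) (2 * G2d (r / 2) c) 0) +
    (G3 (r % 4) c - cond (r % 3 == 0) (3 * G3d (r / 3) c) 0)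

lemma bt_eq (x g : ℕ) (hx : x < 8192) :
    (1 : ℤ) - 2 * ((bt x g : ℕ) : ℤ) = (-1 : ℤ) ^ (((List.range 13).map (fun i => ((x &&& g) >>> i) % 2)).sum) := by
  have hz : x &&& g < 8192 := lt_of_le_of_lt Nat.and_le_left hx
  have h := Nat.eq_of_beq_eq_true (allB_spec chkP _ hz)
  have h1 : bt x g = (((List.range 13).map (fun i => ((x &&& g) >>> i) % 2)).sum) % 2 := by
    unfold bt
    exact h
  rw [h1]
  generalize (((List.range 13).map (fun i => ((x &&& g) >>> i) % 2)).sum) = s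
  rcases Nat.even_or_odd s with hs | hs
  · rw [Nat.even_iff.1 hs, hs.neg_one_pow]; simp
  · rw [Nat.odd_iff.1 hs, hs.neg_one_pow]; norm_num

lemma key (l : ℕ → ℤ) (hl : ∀ n, l n = 1 ∨ l n = -1) (n : ℕ) (F : List ℕ) (g : ℕ)
    (h : (∀ i ∈ F, i < 32) ∧ (∀ i ∈ fl (pl 13 g), i < 32) ∧ xl F = xl (fl (pl 13 g))) :
    P l n F = 1 - 2 * ((bt (xw (w l) n 13) g : ℕ) : ℤ) := by
  have h1 := bt_eq (xw (w l) n 13) g (xw_lt (w l) 13 n)
  have h2 := sgn_list (w l) (w_pm l hl) 13 n g (List.range 13) (fun i hi => List.mem_range.1 hi)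
  have h3 : P l n F = P (w l) n (pl 13 g) := by rw [P_congr l hl n F _ h, ← P_fl]
  rw [h3]
  exact (h1.trans h2).symm

lemma key15 (l : ℕ → ℤ) (hl : ∀ n, l n = 1 ∨ l n = -1) (n : ℕ) :
    P l n [0, 1, 2, 3] = 1 - 2 * ((bt (xw (w l) n 13) 1 : ℕ) : ℤ) := key l hl n _ _ (by decide)
lemma key17 (l : ℕ → ℤ) (hl : ∀ n, l n = 1 ∨ l n = -1) (n : ℕ) :
    P l n [0, 4] = 1 - 2 * ((bt (xw (w l) n 13) 3 : ℕ) : ℤ) := key l hl n _ _ (by decide)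
lemma key45 (l : ℕ → ℤ) (hl : ∀ n, l n = 1 ∨ l n = -1) (n : ℕ) :
    P l n [0, 2, 3, 5] = 1 - 2 * ((bt (xw (w l) n 13) 7 : ℕ) : ℤ) := key l hl n _ _ (by decide)
lemma key51 (l : ℕ → ℤ) (hl : ∀ n, l n = 1 ∨ l n = -1) (n : ℕ) :
    P l n [0, 1, 4, 5] = 1 - 2 * ((bt (xw (w l) n 13) 5 : ℕ) : ℤ) := key l hl n _ _ (by decide)
lemma key75 (l : ℕ → ℤ) (hl : ∀ n, l n = 1 ∨ l n = -1) (n : ℕ) :
    P l n [0, 1, 3, 6] = 1 - 2 * ((bt (xw (w l) n 13) 13 : ℕ) : ℤ) := key l hl n _ _ (by decide)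
lemma key85 (l : ℕ → ℤ) (hl : ∀ n, l n = 1 ∨ l n = -1) (n : ℕ) :
    P l n [0, 2, 4, 6] = 1 - 2 * ((bt (xw (w l) n 13) 15 : ℕ) : ℤ) := key l hl n _ _ (by decide)
lemma key105 (l : ℕ → ℤ) (hl : ∀ n, l n = 1 ∨ l n = -1) (n : ℕ) :
    P l n [0, 3, 5, 6] = 1 - 2 * ((bt (xw (w l) n 13) 11 : ℕ) : ℤ) := key l hl n _ _ (by decide)
lemma key119 (l : ℕ → ℤ) (hl : ∀ n, l n = 1 ∨ l n = -1) (n : ℕ) :
    P l n [0, 1, 2, 4, 5, 6] = 1 - 2 * ((bt (xw (w l) n 13) 9 : ℕ) : ℤ) := key l hl n _ _ (by decide)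
lemma key135 (l : ℕ → ℤ) (hl : ∀ n, l n = 1 ∨ l n = -1) (n : ℕ) :
    P l n [0, 1, 2, 7] = 1 - 2 * ((bt (xw (w l) n 13) 25 : ℕ) : ℤ) := key l hl n _ _ (by decide)
lemma key153 (l : ℕ → ℤ) (hl : ∀ n, l n = 1 ∨ l n = -1) (n : ℕ) :
    P l n [0, 3, 4, 7] = 1 - 2 * ((bt (xw (w l) n 13) 27 : ℕ) : ℤ) := key l hl n _ _ (by decide)
lemma key165 (l : ℕ → ℤ) (hl : ∀ n, l n = 1 ∨ l n = -1) (n : ℕ) :
    P l n [0, 2, 5, 7] = 1 - 2 * ((bt (xw (w l) n 13) 31 : ℕ) : ℤ) := key l hl n _ _ (by decide)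
lemma key187 (l : ℕ → ℤ) (hl : ∀ n, l n = 1 ∨ l n = -1) (n : ℕ) :
    P l n [0, 1, 3, 4, 5, 7] = 1 - 2 * ((bt (xw (w l) n 13) 29 : ℕ) : ℤ) := key l hl n _ _ (by decide)
lemma key195 (l : ℕ → ℤ) (hl : ∀ n, l n = 1 ∨ l n = -1) (n : ℕ) :
    P l n [0, 1, 6, 7] = 1 - 2 * ((bt (xw (w l) n 13) 21 : ℕ) : ℤ) := key l hl n _ _ (by decide)
lemma key221 (l : ℕ → ℤ) (hl : ∀ n, l n = 1 ∨ l n = -1) (n : ℕ) :
    P l n [0, 2, 3, 4, 6, 7] = 1 - 2 * ((bt (xw (w l) n 13) 23 : ℕ) : ℤ) := key l hl n _ _ (by decide)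
lemma key225 (l : ℕ → ℤ) (hl : ∀ n, l n = 1 ∨ l n = -1) (n : ℕ) :
    P l n [0, 5, 6, 7] = 1 - 2 * ((bt (xw (w l) n 13) 19 : ℕ) : ℤ) := key l hl n _ _ (by decide)
lemma key255 (l : ℕ → ℤ) (hl : ∀ n, l n = 1 ∨ l n = -1) (n : ℕ) :
    P l n [0, 1, 2, 3, 4, 5, 6, 7] = 1 - 2 * ((bt (xw (w l) n 13) 17 : ℕ) : ℤ) := key l hl n _ _ (by decide)
lemma key257 (l : ℕ → ℤ) (hl : ∀ n, l n = 1 ∨ l n = -1) (n : ℕ) :
    P l n [0, 8] = 1 - 2 * ((bt (xw (w l) n 13) 51 : ℕ) : ℤ) := key l hl n _ _ (by decide)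
lemma key585 (l : ℕ → ℤ) (hl : ∀ n, l n = 1 ∨ l n = -1) (n : ℕ) :
    P l n [0, 3, 6, 9] = 1 - 2 * ((bt (xw (w l) n 13) 107 : ℕ) : ℤ) := key l hl n _ _ (by decide)
lemma key1105 (l : ℕ → ℤ) (hl : ∀ n, l n = 1 ∨ l n = -1) (n : ℕ) :
    P l n [0, 4, 6, 10] = 1 - 2 * ((bt (xw (w l) n 13) 195 : ℕ) : ℤ) := key l hl n _ _ (by decide)
lemma key1285 (l : ℕ → ℤ) (hl : ∀ n, l n = 1 ∨ l n = -1) (n : ℕ) :
    P l n [0, 2, 8, 10] = 1 - 2 * ((bt (xw (w l) n 13) 255 : ℕ) : ℤ) := key l hl n _ _ (by decide)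
lemma key4097 (l : ℕ → ℤ) (hl : ∀ n, l n = 1 ∨ l n = -1) (n : ℕ) :
    P l n [0, 12] = 1 - 2 * ((bt (xw (w l) n 13) 819 : ℕ) : ℤ) := key l hl n _ _ (by decide)
lemma key4165 (l : ℕ → ℤ) (hl : ∀ n, l n = 1 ∨ l n = -1) (n : ℕ) :
    P l n [0, 2, 6, 12] = 1 - 2 * ((bt (xw (w l) n 13) 831 : ℕ) : ℤ) := key l hl n _ _ (by decide)
lemma key4369 (l : ℕ → ℤ) (hl : ∀ n, l n = 1 ∨ l n = -1) (n : ℕ) :
    P l n [0, 4, 8, 12] = 1 - 2 * ((bt (xw (w l) n 13) 771 : ℕ) : ℤ) := key l hl n _ _ (by decide)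
lemma key5185 (l : ℕ → ℤ) (hl : ∀ n, l n = 1 ∨ l n = -1) (n : ℕ) :
    P l n [0, 6, 10, 12] = 1 - 2 * ((bt (xw (w l) n 13) 1011 : ℕ) : ℤ) := key l hl n _ _ (by decide)
lemma key5397 (l : ℕ → ℤ) (hl : ∀ n, l n = 1 ∨ l n = -1) (n : ℕ) :
    P l n [0, 2, 4, 8, 10, 12] = 1 - 2 * ((bt (xw (w l) n 13) 975 : ℕ) : ℤ) := key l hl n _ _ (by decide)
lemma key16405 (l : ℕ → ℤ) (hl : ∀ n, l n = 1 ∨ l n = -1) (n : ℕ) :
    P l n [0, 2, 4, 14] = 1 - 2 * ((bt (xw (w l) n 13) 3279 : ℕ) : ℤ) := key l hl n _ _ (by decide)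
lemma key16705 (l : ℕ → ℤ) (hl : ∀ n, l n = 1 ∨ l n = -1) (n : ℕ) :
    P l n [0, 6, 8, 14] = 1 - 2 * ((bt (xw (w l) n 13) 3315 : ℕ) : ℤ) := key l hl n _ _ (by decide)
lemma key17425 (l : ℕ → ℤ) (hl : ∀ n, l n = 1 ∨ l n = -1) (n : ℕ) :
    P l n [0, 4, 10, 14] = 1 - 2 * ((bt (xw (w l) n 13) 3075 : ℕ) : ℤ) := key l hl n _ _ (by decide)
lemma key17733 (l : ℕ → ℤ) (hl : ∀ n, l n = 1 ∨ l n = -1) (n : ℕ) :
    P l n [0, 2, 6, 8, 10, 14] = 1 - 2 * ((bt (xw (w l) n 13) 3135 : ℕ) : ℤ) := key l hl n _ _ (by decide)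
lemma key20485 (l : ℕ → ℤ) (hl : ∀ n, l n = 1 ∨ l n = -1) (n : ℕ) :
    P l n [0, 2, 12, 14] = 1 - 2 * ((bt (xw (w l) n 13) 4095 : ℕ) : ℤ) := key l hl n _ _ (by decide)
lemma key20817 (l : ℕ → ℤ) (hl : ∀ n, l n = 1 ∨ l n = -1) (n : ℕ) :
    P l n [0, 4, 6, 8, 12, 14] = 1 - 2 * ((bt (xw (w l) n 13) 4035 : ℕ) : ℤ) := key l hl n _ _ (by decide)
lemma key21505 (l : ℕ → ℤ) (hl : ∀ n, l n = 1 ∨ l n = -1) (n : ℕ) :
    P l n [0, 10, 12, 14] = 1 - 2 * ((bt (xw (w l) n 13) 3891 : ℕ) : ℤ) := key l hl n _ _ (by decide)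
lemma key21845 (l : ℕ → ℤ) (hl : ∀ n, l n = 1 ∨ l n = -1) (n : ℕ) :
    P l n [0, 2, 4, 6, 8, 10, 12, 14] = 1 - 2 * ((bt (xw (w l) n 13) 3855 : ℕ) : ℤ) := key l hl n _ _ (by decide)
lemma key33345 (l : ℕ → ℤ) (hl : ∀ n, l n = 1 ∨ l n = -1) (n : ℕ) :
    P l n [0, 6, 9, 15] = 1 - 2 * ((bt (xw (w l) n 13) 6643 : ℕ) : ℤ) := key l hl n _ _ (by decide)
lemma key36873 (l : ℕ → ℤ) (hl : ∀ n, l n = 1 ∨ l n = -1) (n : ℕ) :
    P l n [0, 3, 12, 15] = 1 - 2 * ((bt (xw (w l) n 13) 6827 : ℕ) : ℤ) := key l hl n _ _ (by decide)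

lemma Hv0 (c : List ℕ → ℤ) : Hv 0 c =
    (3655) * c [0, 4] + (-3178) * c [0, 8] + (482) * c [0, 12] + ((3286) * c [0, 1, 2, 3] + (-1861) * c [0, 2, 3, 5] + (-1562) * c [0, 1, 4, 5] + (1081) * c [0, 1, 3, 6] + (990) * c [0, 2, 4, 6] + (-391) * c [0, 3, 5, 6] + (-1287) * c [0, 1, 2, 4, 5, 6] + (1042) * c [0, 1, 2, 7] + (738) * c [0, 3, 4, 7] + (-940) * c [0, 2, 5, 7] + (-987) * c [0, 1, 3, 4, 5, 7] + (1158) * c [0, 1, 6, 7] + (475) * c [0, 2, 3, 4, 6, 7] + (-677) * c [0, 5, 6, 7] + (-1103) * c [0, 1, 2, 3, 4, 5, 6, 7] - 2 * ((3286) * c [0, 2, 4, 6] + (-1861) * c [0, 4, 6, 10] + (-1562) * c [0, 2, 8, 10] + (1081) * c [0, 2, 6, 12] + (990) * c [0, 4, 8, 12] + (-391) * c [0, 6, 10, 12] + (-1287) * c [0, 2, 4, 8, 10, 12] + (1042) * c [0, 2, 4, 14] + (738) * c [0, 6, 8, 14] + (-940) * c [0, 4, 10, 14] + (-987) * c [0, 2, 6, 8, 10, 14] + (1158) * c [0, 2, 12, 14]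 + (475) * c [0, 4, 6, 8, 12, 14] + (-677) * c [0, 10, 12, 14] + (-1103) * c [0, 2, 4, 6, 8, 10, 12, 14])) + ((1246) * c [0, 1, 2, 3] + (436) * c [0, 2, 3, 5] + (-240) * c [0, 1, 4, 5] - 3 * ((1246) * c [0, 3, 6, 9] + (436) * c [0, 6, 9, 15] + (-240) * c [0, 3, 12, 15])) := rfl

lemma snd0 (l : ℕ → ℤ) (hl : ∀ n, l n = 1 ∨ l n = -1) (n : ℕ) :
    10000 * P l n [0, 1, 2, 3] + Vf 1 (xw (w l) (n + 1) 12) ≤ 4814 + Vf 0 (xw (w l) n 12) + Hv 0 (P l n) := by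
  have h := Nat.le_of_ble_eq_true (allB_spec chk0 _ (xw_lt (w l) 13 n))
  rw [Hv0]
  simp only [key15 l hl n, key17 l hl n, key45 l hl n, key51 l hl n, key75 l hl n, key85 l hl n, key105 l hl n, key119 l hl n, key135 l hl n, key153 l hl n, key165 l hl n, key187 l hl n, key195 l hl n, key221 l hl n, key225 l hl n, key255 l hl n, key257 l hl n, key585 l hl n, key1105 l hl n, key1285 l hl n, key4097 l hl n, key4165 l hl n, key4369 l hl n, key5185 l hl n, key5397 l hl n, key16405 l hl n, key16705 l hl n, key17425 l hl n, key17733 l hl n, key20485 l hl n, key20817 l hl n, key21505 l hl n, key21845 l hl n, key33345 l hl n, key36873 l hl n]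
  have h1 : ((lhs0 (xw (w l) n 13) : ℕ) : ℤ) ≤ (rhs0 (xw (w l) n 13) : ℕ) := by exact_mod_cast h
  have h2 : Vf 1 (xw (w l) (n + 1) 12) = (Vv V1 (Nat.div (xw (w l) n 13) 2) : ℕ) := by
    rw [← xw_div (w l) 12 n]; rfl
  have h3 : Vf 0 (xw (w l) n 12) = (Vv V0 (Nat.mod (xw (w l) n 13) 4096) : ℕ) := by
    rw [← xw_mod (w l) 12 n]; rfl
  rw [h2, h3]
  simp only [lhs0, rhs0, Nat.add_eq, Nat.mul_eq, Nat.cast_add, Nat.cast_mul, Nat.cast_ofNat] at h1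
  push_cast at h1 ⊢
  linarith


lemma Hv1 (c : List ℕ → ℤ) : Hv 1 c =
    (4744) * c [0, 4] + (1548) * c [0, 8] + (0) * c [0, 12] + ((1663) * c [0, 1, 2, 3] + (158) * c [0, 2, 3, 5] + (-82) * c [0, 1, 4, 5] + (-1839) * c [0, 1, 3, 6] + (1466) * c [0, 2, 4, 6] + (-234) * c [0, 3, 5, 6] + (317) * c [0, 1, 2, 4, 5, 6] + (642) * c [0, 1, 2, 7] + (-661) * c [0, 3, 4, 7] + (-650) * c [0, 2, 5, 7] + (622) * c [0, 1, 3, 4, 5, 7] + (-527) * c [0, 1, 6, 7] + (629) * c [0, 2, 3, 4, 6, 7] + (506) * c [0, 5, 6, 7] + (-619) * c [0, 1, 2, 3, 4, 5, 6, 7] - 0) + ((1272) * c [0, 1, 2, 3] + (-98) * c [0, 2, 3, 5] + (294) * c [0, 1, 4, 5] - 0) := rfl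

lemma snd1 (l : ℕ → ℤ) (hl : ∀ n, l n = 1 ∨ l n = -1) (n : ℕ) :
    10000 * P l n [0, 1, 2, 3] + Vf 2 (xw (w l) (n + 1) 12) ≤ 4814 + Vf 1 (xw (w l) n 12) + Hv 1 (P l n) := by
  have h := Nat.le_of_ble_eq_true (allB_spec chk1 _ (xw_lt (w l) 13 n))
  rw [Hv1]
  simp only [key15 l hl n, key17 l hl n, key45 l hl n, key51 l hl n, key75 l hl n, key85 l hl n, key105 l hl n, key119 l hl n, key135 l hl n, key153 l hl n, key165 l hl n, key187 l hl n, key195 l hl n, key221 l hl n, key225 l hl n, key255 l hl n, key257 l hl n, key585 l hl n, key1105 l hl n, key1285 l hl n, key4097 l hl n, key4165 l hl n, key4369 l hl n, key5185 l hl n, key5397 l hl n, key16405 l hl n, key16705 l hl n, key17425 l hl n, key17733 l hl n, key20485 l hl n, key20817 l hl n, key21505 l hl n, key21845 l hl n, key33345 l hl n, key36873 l hl n]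
  have h1 : ((lhs1 (xw (w l) n 13) : ℕ) : ℤ) ≤ (rhs1 (xw (w l) n 13) : ℕ) := by exact_mod_cast h
  have h2 : Vf 2 (xw (w l) (n + 1) 12) = (Vv V2 (Nat.div (xw (w l) n 13) 2) : ℕ) := by
    rw [← xw_div (w l) 12 n]; rfl
  have h3 : Vf 1 (xw (w l) n 12) = (Vv V1 (Nat.mod (xw (w l) n 13) 4096) : ℕ) := by
    rw [← xw_mod (w l) 12 n]; rfl
  rw [h2, h3]
  simp only [lhs1, rhs1, Nat.add_eq, Nat.mul_eq, Nat.cast_add, Nat.cast_mul, Nat.cast_ofNat] at h1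
  push_cast at h1 ⊢
  linarith


lemma Hv2 (c : List ℕ → ℤ) : Hv 2 c =
    (531) * c [0, 4] + (584) * c [0, 8] + (895) * c [0, 12] + ((5619) * c [0, 1, 2, 3] + (237) * c [0, 2, 3, 5] + (-1194) * c [0, 1, 4, 5] + (882) * c [0, 1, 3, 6] + (1022) * c [0, 2, 4, 6] + (-605) * c [0, 3, 5, 6] + (-709) * c [0, 1, 2, 4, 5, 6] + (41) * c [0, 1, 2, 7] + (-173) * c [0, 3, 4, 7] + (-77) * c [0, 2, 5, 7] + (45) * c [0, 1, 3, 4, 5, 7] + (-166) * c [0, 1, 6, 7] + (-283) * c [0, 2, 3, 4, 6, 7] + (49) * c [0, 5, 6, 7] + (269) * c [0, 1, 2, 3, 4, 5, 6, 7] - 2 * ((1663) * c [0, 2, 4, 6] + (158) * c [0, 4, 6, 10] + (-82) * c [0, 2, 8, 10] + (-1839) * c [0, 2, 6, 12] + (1466) * c [0, 4, 8, 12] + (-234) * c [0, 6, 10, 12] + (317) * c [0, 2, 4, 8, 10, 12] + (642) * c [0, 2, 4, 14] + (-661) * c [0, 6, 8, 14] + (-650) * c [0, 4, 10, 14] + (622) * c [0, 2, 6, 8, 10, 14] + (-527) *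 c [0, 2, 12, 14] + (629) * c [0, 4, 6, 8, 12, 14] + (506) * c [0, 10, 12, 14] + (-619) * c [0, 2, 4, 6, 8, 10, 12, 14])) + ((1266) * c [0, 1, 2, 3] + (-124) * c [0, 2, 3, 5] + (320) * c [0, 1, 4, 5] - 0) := rfl

lemma snd2 (l : ℕ → ℤ) (hl : ∀ n, l n = 1 ∨ l n = -1) (n : ℕ) :
    10000 * P l n [0, 1, 2, 3] + Vf 3 (xw (w l) (n + 1) 12) ≤ 4814 + Vf 2 (xw (w l) n 12) + Hv 2 (P l n) := by
  have h := Nat.le_of_ble_eq_true (allB_spec chk2 _ (xw_lt (w l) 13 n))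
  rw [Hv2]
  simp only [key15 l hl n, key17 l hl n, key45 l hl n, key51 l hl n, key75 l hl n, key85 l hl n, key105 l hl n, key119 l hl n, key135 l hl n, key153 l hl n, key165 l hl n, key187 l hl n, key195 l hl n, key221 l hl n, key225 l hl n, key255 l hl n, key257 l hl n, key585 l hl n, key1105 l hl n, key1285 l hl n, key4097 l hl n, key4165 l hl n, key4369 l hl n, key5185 l hl n, key5397 l hl n, key16405 l hl n, key16705 l hl n, key17425 l hl n, key17733 l hl n, key20485 l hl n, key20817 l hl n, key21505 l hl n, key21845 l hl n, key33345 l hl n, key36873 l hl n]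
  have h1 : ((lhs2 (xw (w l) n 13) : ℕ) : ℤ) ≤ (rhs2 (xw (w l) n 13) : ℕ) := by exact_mod_cast h
  have h2 : Vf 3 (xw (w l) (n + 1) 12) = (Vv V3 (Nat.div (xw (w l) n 13) 2) : ℕ) := by
    rw [← xw_div (w l) 12 n]; rfl
  have h3 : Vf 2 (xw (w l) n 12) = (Vv V2 (Nat.mod (xw (w l) n 13) 4096) : ℕ) := by
    rw [← xw_mod (w l) 12 n]; rfl
  rw [h2, h3]
  simp only [lhs2, rhs2, Nat.add_eq, Nat.mul_eq, Nat.cast_add, Nat.cast_mul, Nat.cast_ofNat] at h1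
  push_cast at h1 ⊢
  linarith


lemma Hv3 (c : List ℕ → ℤ) : Hv 3 c =
    (4967) * c [0, 4] + (1548) * c [0, 8] + (2347) * c [0, 12] + ((3532) * c [0, 1, 2, 3] + (-879) * c [0, 2, 3, 5] + (915) * c [0, 1, 4, 5] + (232) * c [0, 1, 3, 6] + (-194) * c [0, 2, 4, 6] + (40) * c [0, 3, 5, 6] + (-215) * c [0, 1, 2, 4, 5, 6] + (178) * c [0, 1, 2, 7] + (-100) * c [0, 3, 4, 7] + (33) * c [0, 2, 5, 7] + (-289) * c [0, 1, 3, 4, 5, 7] + (-77) * c [0, 1, 6, 7] + (-147) * c [0, 2, 3, 4, 6, 7] + (111) * c [0, 5, 6, 7] + (-3) * c [0, 1, 2, 3, 4, 5, 6, 7] - 0) + ((830) * c [0, 1, 2, 3] + (0) * c [0, 2, 3, 5] + (196) * c [0, 1, 4, 5] - 3 * ((1272) * c [0, 3, 6, 9] + (-98) * c [0, 6, 9, 15] + (294) * c [0, 3, 12, 15])) := rfl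

lemma snd3 (l : ℕ → ℤ) (hl : ∀ n, l n = 1 ∨ l n = -1) (n : ℕ) :
    10000 * P l n [0, 1, 2, 3] + Vf 4 (xw (w l) (n + 1) 12) ≤ 4814 + Vf 3 (xw (w l) n 12) + Hv 3 (P l n) := by
  have h := Nat.le_of_ble_eq_true (allB_spec chk3 _ (xw_lt (w l) 13 n))
  rw [Hv3]
  simp only [key15 l hl n, key17 l hl n, key45 l hl n, key51 l hl n, key75 l hl n, key85 l hl n, key105 l hl n, key119 l hl n, key135 l hl n, key153 l hl n, key165 l hl n, key187 l hl n, key195 l hl n, key221 l hl n, key225 l hl n, key255 l hl n, key257 l hl n, key585 l hl n, key1105 l hl n, key1285 l hl n, key4097 l hl n, key4165 l hl n, key4369 l hl n, key5185 l hl n, key5397 l hl n, key16405 l hl n, key16705 l hl n, key17425 l hl n, key17733 l hl n, key20485 l hl n, key20817 l hl n, key21505 l hl n, key21845 l hl n, key33345 l hl n, key36873 l hl n]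
  have h1 : ((lhs3 (xw (w l) n 13) : ℕ) : ℤ) ≤ (rhs3 (xw (w l) n 13) : ℕ) := by exact_mod_cast h
  have h2 : Vf 4 (xw (w l) (n + 1) 12) = (Vv V4 (Nat.div (xw (w l) n 13) 2) : ℕ) := by
    rw [← xw_div (w l) 12 n]; rfl
  have h3 : Vf 3 (xw (w l) n 12) = (Vv V3 (Nat.mod (xw (w l) n 13) 4096) : ℕ) := by
    rw [← xw_mod (w l) 12 n]; rfl
  rw [h2, h3]
  simp only [lhs3, rhs3, Nat.add_eq, Nat.mul_eq, Nat.cast_add, Nat.cast_mul, Nat.cast_ofNat] at h1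
  push_cast at h1 ⊢
  linarith


lemma Hv4 (c : List ℕ → ℤ) : Hv 4 c =
    (3613) * c [0, 4] + (3770) * c [0, 8] + (-119) * c [0, 12] + ((3999) * c [0, 1, 2, 3] + (854) * c [0, 2, 3, 5] + (-344) * c [0, 1, 4, 5] + (-768) * c [0, 1, 3, 6] + (1339) * c [0, 2, 4, 6] + (-166) * c [0, 3, 5, 6] + (716) * c [0, 1, 2, 4, 5, 6] + (-808) * c [0, 1, 2, 7] + (398) * c [0, 3, 4, 7] + (-1183) * c [0, 2, 5, 7] + (825) * c [0, 1, 3, 4, 5, 7] + (674) * c [0, 1, 6, 7] + (-860) * c [0, 2, 3, 4, 6, 7] + (692) * c [0, 5, 6, 7] + (-1032) * c [0, 1, 2, 3, 4, 5, 6, 7] - 2 * ((5619) * c [0, 2, 4, 6] + (237) * c [0, 4, 6, 10] + (-1194) * c [0, 2, 8, 10] + (882) * c [0, 2, 6, 12] + (1022) * c [0, 4, 8, 12] + (-605) * c [0, 6, 10, 12] + (-709) * c [0, 2, 4, 8, 10, 12] + (41) * c [0, 2, 4, 14] + (-173) * c [0, 6, 8, 14] + (-77) * c [0, 4, 10, 14] + (45) * c [0, 2, 6, 8, 10, 14] + (-166)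 * c [0, 2, 12, 14] + (-283) * c [0, 4, 6, 8, 12, 14] + (49) * c [0, 10, 12, 14] + (269) * c [0, 2, 4, 6, 8, 10, 12, 14])) + ((1246) * c [0, 1, 2, 3] + (436) * c [0, 2, 3, 5] + (-240) * c [0, 1, 4, 5] - 0) := rfl

lemma snd4 (l : ℕ → ℤ) (hl : ∀ n, l n = 1 ∨ l n = -1) (n : ℕ) :
    10000 * P l n [0, 1, 2, 3] + Vf 5 (xw (w l) (n + 1) 12) ≤ 4814 + Vf 4 (xw (w l) n 12) + Hv 4 (P l n) := by
  have h := Nat.le_of_ble_eq_true (allB_spec chk4 _ (xw_lt (w l) 13 n))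
  rw [Hv4]
  simp only [key15 l hl n, key17 l hl n, key45 l hl n, key51 l hl n, key75 l hl n, key85 l hl n, key105 l hl n, key119 l hl n, key135 l hl n, key153 l hl n, key165 l hl n, key187 l hl n, key195 l hl n, key221 l hl n, key225 l hl n, key255 l hl n, key257 l hl n, key585 l hl n, key1105 l hl n, key1285 l hl n, key4097 l hl n, key4165 l hl n, key4369 l hl n, key5185 l hl n, key5397 l hl n, key16405 l hl n, key16705 l hl n, key17425 l hl n, key17733 l hl n, key20485 l hl n, key20817 l hl n, key21505 l hl n, key21845 l hl n, key33345 l hl n, key36873 l hl n]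
  have h1 : ((lhs4 (xw (w l) n 13) : ℕ) : ℤ) ≤ (rhs4 (xw (w l) n 13) : ℕ) := by exact_mod_cast h
  have h2 : Vf 5 (xw (w l) (n + 1) 12) = (Vv V5 (Nat.div (xw (w l) n 13) 2) : ℕ) := by
    rw [← xw_div (w l) 12 n]; rfl
  have h3 : Vf 4 (xw (w l) n 12) = (Vv V4 (Nat.mod (xw (w l) n 13) 4096) : ℕ) := by
    rw [← xw_mod (w l) 12 n]; rfl
  rw [h2, h3]
  simp only [lhs4, rhs4, Nat.add_eq, Nat.mul_eq, Nat.cast_add, Nat.cast_mul, Nat.cast_ofNat] at h1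
  push_cast at h1 ⊢
  linarith


lemma Hv5 (c : List ℕ → ℤ) : Hv 5 c =
    (5554) * c [0, 4] + (0) * c [0, 8] + (0) * c [0, 12] + ((2305) * c [0, 1, 2, 3] + (-3029) * c [0, 2, 3, 5] + (1353) * c [0, 1, 4, 5] + (-840) * c [0, 1, 3, 6] + (2997) * c [0, 2, 4, 6] + (-883) * c [0, 3, 5, 6] + (-658) * c [0, 1, 2, 4, 5, 6] + (-226) * c [0, 1, 2, 7] + (1711) * c [0, 3, 4, 7] + (-1756) * c [0, 2, 5, 7] + (-134) * c [0, 1, 3, 4, 5, 7] + (138) * c [0, 1, 6, 7] + (1458) * c [0, 2, 3, 4, 6, 7] + (-1875) * c [0, 5, 6, 7] + (390) * c [0, 1, 2, 3, 4, 5, 6, 7] - 0) + ((1272) * c [0, 1, 2, 3] + (-98) * c [0, 2, 3, 5] + (294) * c [0, 1, 4, 5] - 0) := rfl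

lemma snd5 (l : ℕ → ℤ) (hl : ∀ n, l n = 1 ∨ l n = -1) (n : ℕ) :
    10000 * P l n [0, 1, 2, 3] + Vf 6 (xw (w l) (n + 1) 12) ≤ 4814 + Vf 5 (xw (w l) n 12) + Hv 5 (P l n) := by
  have h := Nat.le_of_ble_eq_true (allB_spec chk5 _ (xw_lt (w l) 13 n))
  rw [Hv5]
  simp only [key15 l hl n, key17 l hl n, key45 l hl n, key51 l hl n, key75 l hl n, key85 l hl n, key105 l hl n, key119 l hl n, key135 l hl n, key153 l hl n, key165 l hl n, key187 l hl n, key195 l hl n, key221 l hl n, key225 l hl n, key255 l hl n, key257 l hl n, key585 l hl n, key1105 l hl n, key1285 l hl n, key4097 l hl n, key4165 l hl n, key4369 l hl n, key5185 l hl n, key5397 l hl n, key16405 l hl n, key16705 l hl n, key17425 l hl n, key17733 l hl n, key20485 l hl n, key20817 l hl n, key21505 l hl n, key21845 l hl n, key33345 l hl n, key36873 l hl n]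
  have h1 : ((lhs5 (xw (w l) n 13) : ℕ) : ℤ) ≤ (rhs5 (xw (w l) n 13) : ℕ) := by exact_mod_cast h
  have h2 : Vf 6 (xw (w l) (n + 1) 12) = (Vv V6 (Nat.div (xw (w l) n 13) 2) : ℕ) := by
    rw [← xw_div (w l) 12 n]; rfl
  have h3 : Vf 5 (xw (w l) n 12) = (Vv V5 (Nat.mod (xw (w l) n 13) 4096) : ℕ) := by
    rw [← xw_mod (w l) 12 n]; rfl
  rw [h2, h3]
  simp only [lhs5, rhs5, Nat.add_eq, Nat.mul_eq, Nat.cast_add, Nat.cast_mul, Nat.cast_ofNat] at h1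
  push_cast at h1 ⊢
  linarith


lemma Hv6 (c : List ℕ → ℤ) : Hv 6 c =
    (4005) * c [0, 4] + (617) * c [0, 8] + (-395) * c [0, 12] + ((3286) * c [0, 1, 2, 3] + (-1861) * c [0, 2, 3, 5] + (-1562) * c [0, 1, 4, 5] + (1081) * c [0, 1, 3, 6] + (990) * c [0, 2, 4, 6] + (-391) * c [0, 3, 5, 6] + (-1287) * c [0, 1, 2, 4, 5, 6] + (1042) * c [0, 1, 2, 7] + (738) * c [0, 3, 4, 7] + (-940) * c [0, 2, 5, 7] + (-987) * c [0, 1, 3, 4, 5, 7] + (1158) * c [0, 1, 6, 7] + (475) * c [0, 2, 3, 4, 6, 7] + (-677) * c [0, 5, 6, 7] + (-1103) * c [0, 1, 2, 3, 4, 5, 6, 7] - 2 * ((3532) * c [0, 2, 4, 6] + (-879) * c [0, 4, 6, 10] + (915) * c [0, 2, 8, 10] + (232) * c [0, 2, 6, 12] + (-194) * c [0, 4, 8, 12] + (40) * c [0, 6, 10, 12] + (-215) * c [0, 2, 4, 8, 10, 12] + (178) * c [0, 2, 4, 14] + (-100) * c [0, 6, 8, 14] + (33) * c [0, 4, 10, 14] + (-289) * c [0, 2, 6, 8, 10, 14] +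 (-77) * c [0, 2, 12, 14] + (-147) * c [0, 4, 6, 8, 12, 14] + (111) * c [0, 10, 12, 14] + (-3) * c [0, 2, 4, 6, 8, 10, 12, 14])) + ((1266) * c [0, 1, 2, 3] + (-124) * c [0, 2, 3, 5] + (320) * c [0, 1, 4, 5] - 3 * ((1266) * c [0, 3, 6, 9] + (-124) * c [0, 6, 9, 15] + (320) * c [0, 3, 12, 15])) := rfl

lemma snd6 (l : ℕ → ℤ) (hl : ∀ n, l n = 1 ∨ l n = -1) (n : ℕ) :
    10000 * P l n [0, 1, 2, 3] + Vf 7 (xw (w l) (n + 1) 12) ≤ 4814 + Vf 6 (xw (w l) n 12) + Hv 6 (P l n) := by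
  have h := Nat.le_of_ble_eq_true (allB_spec chk6 _ (xw_lt (w l) 13 n))
  rw [Hv6]
  simp only [key15 l hl n, key17 l hl n, key45 l hl n, key51 l hl n, key75 l hl n, key85 l hl n, key105 l hl n, key119 l hl n, key135 l hl n, key153 l hl n, key165 l hl n, key187 l hl n, key195 l hl n, key221 l hl n, key225 l hl n, key255 l hl n, key257 l hl n, key585 l hl n, key1105 l hl n, key1285 l hl n, key4097 l hl n, key4165 l hl n, key4369 l hl n, key5185 l hl n, key5397 l hl n, key16405 l hl n, key16705 l hl n, key17425 l hl n, key17733 l hl n, key20485 l hl n, key20817 l hl n, key21505 l hl n, key21845 l hl n, key33345 l hl n, key36873 l hl n]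
  have h1 : ((lhs6 (xw (w l) n 13) : ℕ) : ℤ) ≤ (rhs6 (xw (w l) n 13) : ℕ) := by exact_mod_cast h
  have h2 : Vf 7 (xw (w l) (n + 1) 12) = (Vv V7 (Nat.div (xw (w l) n 13) 2) : ℕ) := by
    rw [← xw_div (w l) 12 n]; rfl
  have h3 : Vf 6 (xw (w l) n 12) = (Vv V6 (Nat.mod (xw (w l) n 13) 4096) : ℕ) := by
    rw [← xw_mod (w l) 12 n]; rfl
  rw [h2, h3]
  simp only [lhs6, rhs6, Nat.add_eq, Nat.mul_eq, Nat.cast_add, Nat.cast_mul, Nat.cast_ofNat] at h1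
  push_cast at h1 ⊢
  linarith


lemma Hv7 (c : List ℕ → ℤ) : Hv 7 c =
    (5206) * c [0, 4] + (2128) * c [0, 8] + (0) * c [0, 12] + ((1663) * c [0, 1, 2, 3] + (158) * c [0, 2, 3, 5] + (-82) * c [0, 1, 4, 5] + (-1839) * c [0, 1, 3, 6] + (1466) * c [0, 2, 4, 6] + (-234) * c [0, 3, 5, 6] + (317) * c [0, 1, 2, 4, 5, 6] + (642) * c [0, 1, 2, 7] + (-661) * c [0, 3, 4, 7] + (-650) * c [0, 2, 5, 7] + (622) * c [0, 1, 3, 4, 5, 7] + (-527) * c [0, 1, 6, 7] + (629) * c [0, 2, 3, 4, 6, 7] + (506) * c [0, 5, 6, 7] + (-619) * c [0, 1, 2, 3, 4, 5, 6, 7] - 0) + ((830) * c [0, 1, 2, 3] + (0) * c [0, 2, 3, 5] + (196) * c [0, 1, 4, 5] - 0) := rfl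

lemma snd7 (l : ℕ → ℤ) (hl : ∀ n, l n = 1 ∨ l n = -1) (n : ℕ) :
    10000 * P l n [0, 1, 2, 3] + Vf 8 (xw (w l) (n + 1) 12) ≤ 4814 + Vf 7 (xw (w l) n 12) + Hv 7 (P l n) := by
  have h := Nat.le_of_ble_eq_true (allB_spec chk7 _ (xw_lt (w l) 13 n))
  rw [Hv7]
  simp only [key15 l hl n, key17 l hl n, key45 l hl n, key51 l hl n, key75 l hl n, key85 l hl n, key105 l hl n, key119 l hl n, key135 l hl n, key153 l hl n, key165 l hl n, key187 l hl n, key195 l hl n, key221 l hl n, key225 l hl n, key255 l hl n, key257 l hl n, key585 l hl n, key1105 l hl n, key1285 l hl n, key4097 l hl n, key4165 l hl n, key4369 l hl n, key5185 l hl n, key5397 l hl n, key16405 l hl n, key16705 l hl n, key17425 l hl n, key17733 l hl n, key20485 l hl n, key20817 l hl n, key21505 l hl n, key21845 l hl n, key33345 l hl n, key36873 l hl n]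
  have h1 : ((lhs7 (xw (w l) n 13) : ℕ) : ℤ) ≤ (rhs7 (xw (w l) n 13) : ℕ) := by exact_mod_cast h
  have h2 : Vf 8 (xw (w l) (n + 1) 12) = (Vv V8 (Nat.div (xw (w l) n 13) 2) : ℕ) := by
    rw [← xw_div (w l) 12 n]; rfl
  have h3 : Vf 7 (xw (w l) n 12) = (Vv V7 (Nat.mod (xw (w l) n 13) 4096) : ℕ) := by
    rw [← xw_mod (w l) 12 n]; rfl
  rw [h2, h3]
  simp only [lhs7, rhs7, Nat.add_eq, Nat.mul_eq, Nat.cast_add, Nat.cast_mul, Nat.cast_ofNat] at h1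
  push_cast at h1 ⊢
  linarith


lemma Hv8 (c : List ℕ → ℤ) : Hv 8 c =
    (181) * c [0, 4] + (2316) * c [0, 8] + (-119) * c [0, 12] + ((5619) * c [0, 1, 2, 3] + (237) * c [0, 2, 3, 5] + (-1194) * c [0, 1, 4, 5] + (882) * c [0, 1, 3, 6] + (1022) * c [0, 2, 4, 6] + (-605) * c [0, 3, 5, 6] + (-709) * c [0, 1, 2, 4, 5, 6] + (41) * c [0, 1, 2, 7] + (-173) * c [0, 3, 4, 7] + (-77) * c [0, 2, 5, 7] + (45) * c [0, 1, 3, 4, 5, 7] + (-166) * c [0, 1, 6, 7] + (-283) * c [0, 2, 3, 4, 6, 7] + (49) * c [0, 5, 6, 7] + (269) * c [0, 1, 2, 3, 4, 5, 6, 7] - 2 * ((3999) * c [0, 2, 4, 6] + (854) * c [0, 4, 6, 10] + (-344) * c [0, 2, 8, 10] + (-768) * c [0, 2, 6, 12] + (1339) * c [0, 4, 8, 12] + (-166) * c [0, 6, 10, 12] + (716) * c [0, 2, 4, 8, 10, 12] + (-808) * c [0, 2, 4, 14] + (398) * c [0, 6, 8, 14] + (-1183) * c [0, 4, 10, 14] + (825) * c [0, 2, 6, 8, 10, 14] + (674)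 * c [0, 2, 12, 14] + (-860) * c [0, 4, 6, 8, 12, 14] + (692) * c [0, 10, 12, 14] + (-1032) * c [0, 2, 4, 6, 8, 10, 12, 14])) + ((1246) * c [0, 1, 2, 3] + (436) * c [0, 2, 3, 5] + (-240) * c [0, 1, 4, 5] - 0) := rfl

lemma snd8 (l : ℕ → ℤ) (hl : ∀ n, l n = 1 ∨ l n = -1) (n : ℕ) :
    10000 * P l n [0, 1, 2, 3] + Vf 9 (xw (w l) (n + 1) 12) ≤ 4814 + Vf 8 (xw (w l) n 12) + Hv 8 (P l n) := by
  have h := Nat.le_of_ble_eq_true (allB_spec chk8 _ (xw_lt (w l) 13 n))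
  rw [Hv8]
  simp only [key15 l hl n, key17 l hl n, key45 l hl n, key51 l hl n, key75 l hl n, key85 l hl n, key105 l hl n, key119 l hl n, key135 l hl n, key153 l hl n, key165 l hl n, key187 l hl n, key195 l hl n, key221 l hl n, key225 l hl n, key255 l hl n, key257 l hl n, key585 l hl n, key1105 l hl n, key1285 l hl n, key4097 l hl n, key4165 l hl n, key4369 l hl n, key5185 l hl n, key5397 l hl n, key16405 l hl n, key16705 l hl n, key17425 l hl n, key17733 l hl n, key20485 l hl n, key20817 l hl n, key21505 l hl n, key21845 l hl n, key33345 l hl n, key36873 l hl n]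
  have h1 : ((lhs8 (xw (w l) n 13) : ℕ) : ℤ) ≤ (rhs8 (xw (w l) n 13) : ℕ) := by exact_mod_cast h
  have h2 : Vf 9 (xw (w l) (n + 1) 12) = (Vv V9 (Nat.div (xw (w l) n 13) 2) : ℕ) := by
    rw [← xw_div (w l) 12 n]; rfl
  have h3 : Vf 8 (xw (w l) n 12) = (Vv V8 (Nat.mod (xw (w l) n 13) 4096) : ℕ) := by
    rw [← xw_mod (w l) 12 n]; rfl
  rw [h2, h3]
  simp only [lhs8, rhs8, Nat.add_eq, Nat.mul_eq, Nat.cast_add, Nat.cast_mul, Nat.cast_ofNat] at h1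
  push_cast at h1 ⊢
  linarith


lemma Hv9 (c : List ℕ → ℤ) : Hv 9 c =
    (5085) * c [0, 4] + (2128) * c [0, 8] + (960) * c [0, 12] + ((3532) * c [0, 1, 2, 3] + (-879) * c [0, 2, 3, 5] + (915) * c [0, 1, 4, 5] + (232) * c [0, 1, 3, 6] + (-194) * c [0, 2, 4, 6] + (40) * c [0, 3, 5, 6] + (-215) * c [0, 1, 2, 4, 5, 6] + (178) * c [0, 1, 2, 7] + (-100) * c [0, 3, 4, 7] + (33) * c [0, 2, 5, 7] + (-289) * c [0, 1, 3, 4, 5, 7] + (-77) * c [0, 1, 6, 7] + (-147) * c [0, 2, 3, 4, 6, 7] + (111) * c [0, 5, 6, 7] + (-3) * c [0, 1, 2, 3, 4, 5, 6, 7] - 0) + ((1272) * c [0, 1, 2, 3] + (-98) * c [0, 2, 3, 5] + (294) * c [0, 1, 4, 5] - 3 * ((830) * c [0, 3, 6, 9] + (0) * c [0, 6, 9, 15] + (196) * c [0, 3, 12, 15])) := rfl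

lemma snd9 (l : ℕ → ℤ) (hl : ∀ n, l n = 1 ∨ l n = -1) (n : ℕ) :
    10000 * P l n [0, 1, 2, 3] + Vf 10 (xw (w l) (n + 1) 12) ≤ 4814 + Vf 9 (xw (w l) n 12) + Hv 9 (P l n) := by
  have h := Nat.le_of_ble_eq_true (allB_spec chk9 _ (xw_lt (w l) 13 n))
  rw [Hv9]
  simp only [key15 l hl n, key17 l hl n, key45 l hl n, key51 l hl n, key75 l hl n, key85 l hl n, key105 l hl n, key119 l hl n, key135 l hl n, key153 l hl n, key165 l hl n, key187 l hl n, key195 l hl n, key221 l hl n, key225 l hl n, key255 l hl n, key257 l hl n, key585 l hl n, key1105 l hl n, key1285 l hl n, key4097 l hl n, key4165 l hl n, key4369 l hl n, key5185 l hl n, key5397 l hl n, key16405 l hl n, key16705 l hl n, key17425 l hl n, key17733 l hl n, key20485 l hl n, key20817 l hl n, key21505 l hl n, key21845 l hl n, key33345 l hl n, key36873 l hl n]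
  have h1 : ((lhs9 (xw (w l) n 13) : ℕ) : ℤ) ≤ (rhs9 (xw (w l) n 13) : ℕ) := by exact_mod_cast h
  have h2 : Vf 10 (xw (w l) (n + 1) 12) = (Vv V10 (Nat.div (xw (w l) n 13) 2) : ℕ) := by
    rw [← xw_div (w l) 12 n]; rfl
  have h3 : Vf 9 (xw (w l) n 12) = (Vv V9 (Nat.mod (xw (w l) n 13) 4096) : ℕ) := by
    rw [← xw_mod (w l) 12 n]; rfl
  rw [h2, h3]
  simp only [lhs9, rhs9, Nat.add_eq, Nat.mul_eq, Nat.cast_add, Nat.cast_mul, Nat.cast_ofNat] at h1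
  push_cast at h1 ⊢
  linarith


lemma Hv10 (c : List ℕ → ℤ) : Hv 10 c =
    (3186) * c [0, 4] + (-1482) * c [0, 8] + (895) * c [0, 12] + ((3999) * c [0, 1, 2, 3] + (854) * c [0, 2, 3, 5] + (-344) * c [0, 1, 4, 5] + (-768) * c [0, 1, 3, 6] + (1339) * c [0, 2, 4, 6] + (-166) * c [0, 3, 5, 6] + (716) * c [0, 1, 2, 4, 5, 6] + (-808) * c [0, 1, 2, 7] + (398) * c [0, 3, 4, 7] + (-1183) * c [0, 2, 5, 7] + (825) * c [0, 1, 3, 4, 5, 7] + (674) * c [0, 1, 6, 7] + (-860) * c [0, 2, 3, 4, 6, 7] + (692) * c [0, 5, 6, 7] + (-1032) * c [0, 1, 2, 3, 4, 5, 6, 7] - 2 * ((2305) * c [0, 2, 4, 6] + (-3029) * c [0, 4, 6, 10] + (1353) * c [0, 2, 8, 10] + (-840) * c [0, 2, 6, 12] + (2997) * c [0, 4, 8, 12] + (-883) * c [0, 6, 10, 12] + (-658) * c [0, 2, 4, 8, 10, 12] + (-226) * c [0, 2, 4, 14] + (1711) * c [0, 6, 8, 14] + (-1756) * c [0, 4, 10, 14] + (-134) * c [0, 2, 6, 8, 10,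 14] + (138) * c [0, 2, 12, 14] + (1458) * c [0, 4, 6, 8, 12, 14] + (-1875) * c [0, 10, 12, 14] + (390) * c [0, 2, 4, 6, 8, 10, 12, 14])) + ((1266) * c [0, 1, 2, 3] + (-124) * c [0, 2, 3, 5] + (320) * c [0, 1, 4, 5] - 0) := rfl

lemma snd10 (l : ℕ → ℤ) (hl : ∀ n, l n = 1 ∨ l n = -1) (n : ℕ) :
    10000 * P l n [0, 1, 2, 3] + Vf 11 (xw (w l) (n + 1) 12) ≤ 4814 + Vf 10 (xw (w l) n 12) + Hv 10 (P l n) := by
  have h := Nat.le_of_ble_eq_true (allB_spec chk10 _ (xw_lt (w l) 13 n))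
  rw [Hv10]
  simp only [key15 l hl n, key17 l hl n, key45 l hl n, key51 l hl n, key75 l hl n, key85 l hl n, key105 l hl n, key119 l hl n, key135 l hl n, key153 l hl n, key165 l hl n, key187 l hl n, key195 l hl n, key221 l hl n, key225 l hl n, key255 l hl n, key257 l hl n, key585 l hl n, key1105 l hl n, key1285 l hl n, key4097 l hl n, key4165 l hl n, key4369 l hl n, key5185 l hl n, key5397 l hl n, key16405 l hl n, key16705 l hl n, key17425 l hl n, key17733 l hl n, key20485 l hl n, key20817 l hl n, key21505 l hl n, key21845 l hl n, key33345 l hl n, key36873 l hl n]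
  have h1 : ((lhs10 (xw (w l) n 13) : ℕ) : ℤ) ≤ (rhs10 (xw (w l) n 13) : ℕ) := by exact_mod_cast h
  have h2 : Vf 11 (xw (w l) (n + 1) 12) = (Vv V11 (Nat.div (xw (w l) n 13) 2) : ℕ) := by
    rw [← xw_div (w l) 12 n]; rfl
  have h3 : Vf 10 (xw (w l) n 12) = (Vv V10 (Nat.mod (xw (w l) n 13) 4096) : ℕ) := by
    rw [← xw_mod (w l) 12 n]; rfl
  rw [h2, h3]
  simp only [lhs10, rhs10, Nat.add_eq, Nat.mul_eq, Nat.cast_add, Nat.cast_mul, Nat.cast_ofNat] at h1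
  push_cast at h1 ⊢
  linarith


lemma Hv11 (c : List ℕ → ℤ) : Hv 11 c =
    (6597) * c [0, 4] + (0) * c [0, 8] + (0) * c [0, 12] + ((2305) * c [0, 1, 2, 3] + (-3029) * c [0, 2, 3, 5] + (1353) * c [0, 1, 4, 5] + (-840) * c [0, 1, 3, 6] + (2997) * c [0, 2, 4, 6] + (-883) * c [0, 3, 5, 6] + (-658) * c [0, 1, 2, 4, 5, 6] + (-226) * c [0, 1, 2, 7] + (1711) * c [0, 3, 4, 7] + (-1756) * c [0, 2, 5, 7] + (-134) * c [0, 1, 3, 4, 5, 7] + (138) * c [0, 1, 6, 7] + (1458) * c [0, 2, 3, 4, 6, 7] + (-1875) * c [0, 5, 6, 7] + (390) * c [0, 1, 2, 3, 4, 5, 6, 7] - 0) + ((830) * c [0, 1, 2, 3] + (0) * c [0, 2, 3, 5] + (196) * c [0, 1, 4, 5] - 0) := rfl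

lemma snd11 (l : ℕ → ℤ) (hl : ∀ n, l n = 1 ∨ l n = -1) (n : ℕ) :
    10000 * P l n [0, 1, 2, 3] + Vf 0 (xw (w l) (n + 1) 12) ≤ 4814 + Vf 11 (xw (w l) n 12) + Hv 11 (P l n) := by
  have h := Nat.le_of_ble_eq_true (allB_spec chk11 _ (xw_lt (w l) 13 n))
  rw [Hv11]
  simp only [key15 l hl n, key17 l hl n, key45 l hl n, key51 l hl n, key75 l hl n, key85 l hl n, key105 l hl n, key119 l hl n, key135 l hl n, key153 l hl n, key165 l hl n, key187 l hl n, key195 l hl n, key221 l hl n, key225 l hl n, key255 l hl n, key257 l hl n, key585 l hl n, key1105 l hl n, key1285 l hl n, key4097 l hl n, key4165 l hl n, key4369 l hl n, key5185 l hl n, key5397 l hl n, key16405 l hl n, key16705 l hl n, key17425 l hl n, key17733 l hl n, key20485 l hl n, key20817 l hl n, key21505 l hl n, key21845 l hl n, key33345 l hl n, key36873 l hl n]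
  have h1 : ((lhs11 (xw (w l) n 13) : ℕ) : ℤ) ≤ (rhs11 (xw (w l) n 13) : ℕ) := by exact_mod_cast h
  have h2 : Vf 0 (xw (w l) (n + 1) 12) = (Vv V0 (Nat.div (xw (w l) n 13) 2) : ℕ) := by
    rw [← xw_div (w l) 12 n]; rfl
  have h3 : Vf 11 (xw (w l) n 12) = (Vv V11 (Nat.mod (xw (w l) n 13) 4096) : ℕ) := by
    rw [← xw_mod (w l) 12 n]; rfl
  rw [h2, h3]
  simp only [lhs11, rhs11, Nat.add_eq, Nat.mul_eq, Nat.cast_add, Nat.cast_mul, Nat.cast_ofNat] at h1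
  push_cast at h1 ⊢
  linarith


/-- **the inequality** -/
theorem main_ineq (l : ℕ → ℤ) (hl : ∀ n, l n = 1 ∨ l n = -1) (n : ℕ) :
    10000 * P l n [0, 1, 2, 3] + Vf ((n + 1) % 12) (xw (w l) (n + 1) 12) ≤
      4814 + Vf (n % 12) (xw (w l) n 12) + Hv (n % 12) (P l n) := by
  have h1 : (n + 1) % 12 = (n % 12 + 1) % 12 := by omega
  have h2 : n % 12 < 12 := Nat.mod_lt _ (by norm_num)
  rw [h1]
  generalize n % 12 = r at *
  interval_cases r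
  · exact snd0 l hl n
  · exact snd1 l hl n
  · exact snd2 l hl n
  · exact snd3 l hl n
  · exact snd4 l hl n
  · exact snd5 l hl n
  · exact snd6 l hl n
  · exact snd7 l hl n
  · exact snd8 l hl n
  · exact snd9 l hl n
  · exact snd10 l hl n
  · exact snd11 l hl n

end Pool.Agent.Helper524_CH
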